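import Pool.Agent.P.MP_abed8b_co.Graph

set_option autoImplicit false

namespace Pool.Agent.P.MP_abed8b_co

open Finset

variable {V : Type} [Fintype V] [DecidableEq V]

/-- `a T` is the total weight of the hyperedges of size at most `e` that miss `T`. -/
def Allowed (e : ℕ) (a : Finset V → ℝ) : Prop :=
  ∃ β : Finset V → ℝ, (∀ N, 0 ≤ β N) ∧ (∀ N, β N ≠ 0 → N.card ≤ e) ∧
    ∀ T, a T = ∑ N, if Disjoint N T then β N else 0

/-- Ordered splittings of `U` into `k` colour classes. -/
def splits (U : Finset V) (k : ℕ) : Finset (Fin k → Finset V) :=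
  univ.filter fun f => ∀ v, (∑ c, if v ∈ f c then 1 else 0 : ℕ) = if v ∈ U then 1 else 0

theorem alga_mem {U : Finset V} {k : ℕ} {f : Fin k → Finset V} :
    f ∈ splits U k ↔ ∀ v, (∑ c, if v ∈ f c then 1 else 0 : ℕ) = if v ∈ U then 1 else 0 := by
  simp only [splits, mem_filter, mem_univ, true_and]

theorem alga_mem_col (U : Finset V) {k : ℕ} (σ : {v // v ∈ U} → Fin k) (c : Fin k) (v : V) :
    v ∈ (univ.filter fun v : {v // v ∈ U} => σ v = c).map (Function.Embedding.subtype _) ↔
      ∃ h : v ∈ U, σ ⟨v, h⟩ = c := by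
  simp only [mem_map, mem_filter, mem_univ, true_and, Function.Embedding.coe_subtype]
  constructor
  · rintro ⟨⟨w, hw⟩, h, rfl⟩
    exact ⟨hw, h⟩
  · rintro ⟨h, h'⟩
    exact ⟨⟨v, h⟩, h', rfl⟩

theorem alga_unique {U : Finset V} {k : ℕ} {f : Fin k → Finset V} (hf : f ∈ splits U k) {v : V}
    (hv : v ∈ U) : ∃ c, ∀ c', v ∈ f c' ↔ c = c' := by
  have h := alga_mem.1 hf v
  rw [if_pos hv, ← card_filter, card_eq_one] at h
  obtain ⟨c, hc⟩ := h
  refine ⟨c, fun c' => ?_⟩
  have : c' ∈ univ.filter (fun c => v ∈ f c) ↔ c' ∈ ({c} : Finset (Fin k)) := by rw [hc]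
  simpa [eq_comm] using this

theorem alga_sub {U : Finset V} {k : ℕ} {f : Fin k → Finset V} (hf : f ∈ splits U k) {v : V}
    {c : Fin k} (hc : v ∈ f c) : v ∈ U := by
  by_contra hv
  have h := alga_mem.1 hf v
  rw [if_neg hv, sum_eq_zero_iff] at h
  simpa [hc] using h c (mem_univ c)

/-- Colourings of `U` are ordered splittings of `U`. -/
theorem sum_colourings (U : Finset V) (k : ℕ) (F : (Fin k → Finset V) → ℝ) :
    ∑ σ : {v // v ∈ U} → Fin k,
        F (fun c => (univ.filter fun v : {v // v ∈ U} => σ v = c).map (Function.Embedding.subtype _))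
      = ∑ f ∈ splits U k, F f := by
  refine sum_bij (fun σ _ => fun c =>
    (univ.filter fun v : {v // v ∈ U} => σ v = c).map (Function.Embedding.subtype _))
    (fun σ _ => ?_) (fun σ _ σ' _ h => ?_) (fun f hf => ?_) (fun _ _ => rfl)
  · rw [alga_mem]
    intro v
    simp only [alga_mem_col]
    by_cases hv : v ∈ U
    · simp [hv]
    · simp [hv]
  · funext ⟨v, hv⟩
    have h1 := (alga_mem_col U σ (σ ⟨v, hv⟩) v).2 ⟨hv, rfl⟩
    rw [congrFun h (σ ⟨v, hv⟩), alga_mem_col] at h1
    obtain ⟨_, h2⟩ := h1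
    exact h2.symm
  · choose g hg using fun v : {v // v ∈ U} => alga_unique hf v.2
    refine ⟨g, mem_univ _, ?_⟩
    funext c
    ext v
    rw [alga_mem_col]
    constructor
    · rintro ⟨h, h'⟩
      exact (hg ⟨v, h⟩ c).2 h'
    · intro h
      exact ⟨alga_sub hf h, (hg ⟨v, alga_sub hf h⟩ c).1 h⟩

theorem alga_cons_mem (U T : Finset V) {k : ℕ} (f : Fin k → Finset V) :
    (Fin.cons T f : Fin (k + 1) → Finset V) ∈ splits U (k + 1) ↔
      T ⊆ U ∧ f ∈ splits (U \ T) k := by
  simp only [alga_mem, Fin.sum_univ_succ, Fin.cons_zero, Fin.cons_succ, mem_sdiff]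
  constructor
  · intro h
    refine ⟨fun v hv => ?_, fun v => ?_⟩
    · by_contra hU
      have := h v
      rw [if_pos hv, if_neg hU] at this
      omega
    · have := h v
      by_cases hv : v ∈ T <;> by_cases hU : v ∈ U <;>
        simp only [hv, hU, if_true, if_false, not_true, not_false_iff, and_true, and_false]
          at this ⊢ <;> omega
  · rintro ⟨h1, h2⟩ v
    have := h2 v
    have h3 := @h1 v
    by_cases hv : v ∈ T <;> by_cases hU : v ∈ U <;>
      simp only [hv, hU, if_true, if_false, not_true, not_false_iff, and_true, and_false,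
        true_implies] at this h3 ⊢ <;> omega

theorem alga_cons_sum (U : Finset V) (k : ℕ) (G : (Fin (k + 1) → Finset V) → ℝ) :
    ∑ T ∈ U.powerset, ∑ f ∈ splits (U \ T) k, G (Fin.cons T f) = ∑ g ∈ splits U (k + 1), G g := by
  rw [sum_sigma']
  refine sum_bij (fun x _ => Fin.cons x.1 x.2) (fun x hx => ?_) (fun x _ y _ h => ?_)
    (fun g hg => ?_) (fun _ _ => rfl)
  · rw [mem_sigma, mem_powerset] at hx
    exact (alga_cons_mem U x.1 x.2).2 hx
  · obtain ⟨x1, x2⟩ := x
    obtain ⟨y1, y2⟩ := y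
    obtain ⟨h1, h2⟩ := Fin.cons_inj.1 h
    dsimp only at h1 h2
    rw [h1, h2]
  · refine ⟨⟨g 0, Fin.tail g⟩, ?_, Fin.cons_self_tail g⟩
    rw [mem_sigma, mem_powerset]
    exact (alga_cons_mem U (g 0) (Fin.tail g)).1 (by rwa [Fin.cons_self_tail])

theorem alga_sum_l {U : Finset V} {k : ℕ} {f : Fin k → Finset V} (hf : f ∈ splits U k)
    (l : V → ℝ) : ∑ v ∈ U, l v = ∑ c, ∑ v ∈ f c, l v := by
  have h1 : ∀ S : Finset V, ∑ v ∈ S, l v = ∑ v, ((if v ∈ S then 1 else 0 : ℕ) : ℝ) * l v := by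
    intro S
    simp
  simp only [h1 U, fun c => h1 (f c)]
  rw [sum_comm]
  refine sum_congr rfl fun v _ => ?_
  rw [← sum_mul, ← Nat.cast_sum, alga_mem.1 hf v]

theorem alga_perm {U : Finset V} {k : ℕ} {f : Fin k → Finset V} (hf : f ∈ splits U k)
    (π : Equiv.Perm (Fin k)) : (fun c => f (π c)) ∈ splits U k := by
  rw [alga_mem] at hf ⊢
  intro v
  rw [← hf v]
  exact Equiv.sum_comp π fun c => if v ∈ f c then 1 else 0

theorem alga_swap (a : Finset V → ℝ) (L : Finset V → ℝ) (U : Finset V) (k M : ℕ) (c c' : Fin k) :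
    ∑ g ∈ splits U k, (∑ i, a (g i)) ^ M * L (g c) =
      ∑ g ∈ splits U k, (∑ i, a (g i)) ^ M * L (g c') := by
  refine sum_nbij' (fun g i => g (Equiv.swap c c' i)) (fun g i => g (Equiv.swap c c' i))
    (fun g hg => alga_perm hg _) (fun g hg => alga_perm hg _) (fun g _ => ?_) (fun g _ => ?_)
    (fun g _ => ?_)
  · funext i
    simp
  · funext i
    simp
  · dsimp only
    rw [Equiv.swap_apply_right, Equiv.sum_comp (Equiv.swap c c') fun i => a (g i)]

/-- The Euler identity at a natural number of colours, with `M` vertices on the other side. -/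
theorem euler_nat (a : Finset V → ℝ) (l : V → ℝ) (U : Finset V) (k M : ℕ) :
    ∑ T ∈ U.powerset, ∑ f ∈ splits (U \ T) k,
      (a T + ∑ c, a (f c)) ^ M * (∑ v ∈ U \ T, l v - k * ∑ v ∈ T, l v) = 0 := by
  have h := alga_cons_sum U k fun g =>
    ∑ c : Fin k, ((∑ i, a (g i)) ^ M * ∑ v ∈ g c.succ, l v - (∑ i, a (g i)) ^ M * ∑ v ∈ g 0, l v)
  have h0 : ∑ g ∈ splits U (k + 1), ∑ c : Fin k,
      ((∑ i, a (g i)) ^ M * ∑ v ∈ g c.succ, l v - (∑ i, a (g i)) ^ M * ∑ v ∈ g 0, l v) = 0 := by
    rw [sum_comm]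
    refine sum_eq_zero fun c _ => ?_
    rw [sum_sub_distrib, alga_swap a (fun S => ∑ v ∈ S, l v) U (k + 1) M c.succ 0, sub_self]
  rw [h0] at h
  refine Eq.trans (sum_congr rfl fun T _ => sum_congr rfl fun f hf => ?_) h
  simp only [Fin.sum_univ_succ, Fin.cons_zero, Fin.cons_succ]
  rw [alga_sum_l hf l, sum_sub_distrib, ← mul_sum, sum_const, card_univ, Fintype.card_fin,
    nsmul_eq_mul]
  ring

omit [Fintype V] in
theorem algb_disj (U N : Finset V) {k : ℕ} (σ : {v // v ∈ U} → Fin k) (c : Fin k) :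
    (∀ a ∈ N.subtype (· ∈ U), σ a ≠ c) ↔
      Disjoint N ((univ.filter fun v : {v // v ∈ U} => σ v = c).map
        (Function.Embedding.subtype _)) := by
  rw [disjoint_left]
  simp only [mem_subtype, mem_map, mem_filter, mem_univ, true_and,
    Function.Embedding.coe_subtype, not_exists, not_and]
  constructor
  · rintro h v hv x hx rfl
    exact h x hv hx
  · intro h x hx hc
    exact h hx x hc rfl

theorem algb_poly_zero (P : Polynomial ℝ) (h : ∀ k : ℕ, P.eval (k : ℝ) = 0) : P = 0 := by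
  refine Polynomial.eq_zero_of_infinite_isRoot P ?_
  refine Set.Infinite.mono (s := Set.range ((↑) : ℕ → ℝ)) ?_
    (Set.infinite_range_of_injective Nat.cast_injective)
  rintro _ ⟨k, rfl⟩
  exact h k

theorem algb_eval_zero (P : Polynomial ℝ) (h : ∀ k : ℕ, P.eval (k : ℝ) = 0) (x : ℝ) :
    P.eval x = 0 := by
  rw [algb_poly_zero P h, Polynomial.eval_zero]

theorem algb_splits_empty (k : ℕ) : splits (∅ : Finset V) k = {fun _ => ∅} := by
  ext f
  simp only [splits, mem_filter, mem_univ, true_and, mem_singleton, notMem_empty, if_false,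
    sum_eq_zero_iff, true_implies, ite_eq_right_iff, one_ne_zero, imp_false]
  constructor
  · intro h
    funext c
    exact eq_empty_of_forall_notMem fun v => h v c
  · rintro rfl v c
    exact notMem_empty v

theorem algb_binom (x y : ℝ) (M : ℕ) :
    ∑ p ∈ antidiagonal M, x ^ p.1 / p.1.factorial * (y ^ p.2 / p.2.factorial) =
      (x + y) ^ M / M.factorial := by
  rw [(Commute.all x y).add_pow', sum_div]
  refine sum_congr rfl fun p hp => ?_
  have h := Nat.add_choose_mul_factorial_mul_factorial p.2 p.1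
  rw [add_comm, mem_antidiagonal.1 hp] at h
  have h' : (M.factorial : ℝ) = (M.choose p.1 : ℝ) * p.2.factorial * p.1.factorial := by
    exact_mod_cast h.symm
  have h0 : (M.choose p.1 : ℝ) ≠ 0 := by
    have := mem_antidiagonal.1 hp
    exact_mod_cast (Nat.choose_pos (by omega)).ne'
  rw [h', nsmul_eq_mul]
  field_simp

/-- Averaged chromatic polynomials with `M` vertices on the other side. -/
theorem exists_polyM (hC : Conj) (d : ℕ) (a : Finset V → ℝ) (ha : Allowed d a) (U : Finset V)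
    (M : ℕ) :
    ∃ P : Polynomial ℝ,
      (∀ k : ℕ, P.eval (k : ℝ) = ∑ f ∈ splits U k, (∑ c, a (f c)) ^ M) ∧
      (∀ q : ℝ, 1 ≤ q → |P.eval q| ≤ q ^ U.card * (2 ^ U.card * q * a ∅) ^ M) ∧
      (∀ q : ℝ, (d : ℝ) < q → 0 ≤ P.eval q) := by
  obtain ⟨β, h0, hd, ha⟩ := ha
  choose P h1 h2 h3 using fun w : Fin M → Finset V =>
    exists_poly hC {v // v ∈ U} M fun j => (w j).subtype (· ∈ U)
  have hev : ∀ x : ℝ, (∑ w : Fin M → Finset V, Polynomial.C (∏ j, β (w j)) * P w).eval x =
      ∑ w : Fin M → Finset V, (∏ j, β (w j)) * (P w).eval x := by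
    intro x
    simp only [Polynomial.eval_finsetSum, Polynomial.eval_mul, Polynomial.eval_C]
  have hpow : ∀ g : Finset V → ℝ, ∑ w : Fin M → Finset V, ∏ j, g (w j) = (∑ N, g N) ^ M := by
    intro g
    have := prod_univ_sum (fun _ : Fin M => (univ : Finset (Finset V))) fun _ N => g N
    rw [Fintype.piFinset_univ] at this
    rw [← this, prod_const, card_univ, Fintype.card_fin]
  refine ⟨∑ w : Fin M → Finset V, Polynomial.C (∏ j, β (w j)) * P w, fun k => ?_,
    fun q hq => ?_, fun q hq => ?_⟩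
  · rw [hev, ← sum_colourings U k fun f => (∑ c, a (f c)) ^ M]
    simp only [h1, mul_sum]
    rw [sum_comm]
    refine sum_congr rfl fun σ _ => ?_
    simp only [← prod_mul_distrib]
    rw [hpow fun N => β N * ∑ c : Fin k, if ∀ a ∈ N.subtype (· ∈ U), σ a ≠ c then (1 : ℝ) else 0]
    congr 1
    simp only [ha, mul_sum]
    rw [sum_comm]
    refine sum_congr rfl fun c _ => sum_congr rfl fun N _ => ?_
    by_cases h : ∀ a ∈ N.subtype (· ∈ U), σ a ≠ c
    · rw [if_pos h, if_pos ((algb_disj U N σ c).1 h), mul_one]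
    · rw [if_neg h, if_neg (fun h' => h ((algb_disj U N σ c).2 h')), mul_zero]
  · have he : a ∅ = ∑ N, β N := by simp [ha]
    rw [hev, he, mul_pow _ (∑ N, β N), ← hpow, ← mul_assoc, mul_sum]
    refine (abs_sum_le_sum_abs _ _).trans (sum_le_sum fun w _ => ?_)
    have hw : 0 ≤ ∏ j, β (w j) := prod_nonneg fun j _ => h0 _
    rw [abs_mul, abs_of_nonneg hw, mul_comm]
    refine mul_le_mul_of_nonneg_right ?_ hw
    simpa only [Fintype.card_coe] using h2 w q hq
  · rw [hev]
    refine sum_nonneg fun w _ => ?_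
    by_cases hw : ∏ j, β (w j) = 0
    · rw [hw, zero_mul]
    · refine mul_nonneg (prod_nonneg fun j _ => h0 _) (h3 w d q (fun j => ?_) hq).le
      rw [card_subtype]
      exact (card_filter_le _ _).trans (hd _ (prod_ne_zero_iff.1 hw j (mem_univ j)))

/-- Poisson number of vertices on the other side: nonnegative coefficients of the `q`-th power of
the generating function with coefficients `exp (a T)`, through the Euler identity. -/
theorem exists_Z (hC : Conj) (d : ℕ) (q : ℝ) (hq : (d : ℝ) < q) (hq1 : 1 ≤ q)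
    (a : Finset V → ℝ) (ha : Allowed d a) :
    ∃ Z : Finset V → ℝ, (∀ U, 0 ≤ Z U) ∧ 0 < Z ∅ ∧
      ∀ (U : Finset V) (l : V → ℝ), ∑ T ∈ U.powerset,
        Real.exp (a T) * Z (U \ T) * (∑ v ∈ U \ T, l v - q * ∑ v ∈ T, l v) = 0 := by
  choose P h1 h2 h3 using exists_polyM hC d a ha
  have hs : ∀ U, Summable fun M : ℕ => ‖(P U M).eval q / (M.factorial : ℝ)‖ := by
    intro U
    refine Summable.of_nonneg_of_le (fun _ => norm_nonneg _) (fun M => ?_)
      ((Real.summable_pow_div_factorial (2 ^ U.card * q * a ∅)).mul_left (q ^ U.card))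
    rw [norm_div, Real.norm_natCast, Real.norm_eq_abs, ← mul_div_assoc]
    exact div_le_div_of_nonneg_right (h2 U M q hq1) (Nat.cast_nonneg _)
  have hn : ∀ U M, 0 ≤ (P U M).eval q / (M.factorial : ℝ) := fun U M =>
    div_nonneg (h3 U M q hq) (Nat.cast_nonneg _)
  refine ⟨fun U => ∑' M : ℕ, (P U M).eval q / (M.factorial : ℝ), fun U => tsum_nonneg (hn U), ?_,
    fun U l => ?_⟩
  · refine (hs ∅).of_norm.tsum_pos (hn ∅) 0 ?_
    have : P ∅ 0 - 1 = 0 := algb_poly_zero _ fun k => by
      simp [h1, algb_splits_empty]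
    rw [sub_eq_zero.1 this]
    simp
  · have hE : ∀ x : ℝ, Summable fun i : ℕ => ‖x ^ i / (i.factorial : ℝ)‖ := fun x =>
      (Real.summable_pow_div_factorial x).norm
    have hexp : ∀ x : ℝ, Real.exp x = ∑' i : ℕ, x ^ i / (i.factorial : ℝ) := fun x => by
      rw [Real.exp_eq_exp_ℝ, NormedSpace.exp_eq_tsum_div]
    have key : ∀ M : ℕ, ∑ T ∈ U.powerset, (∑ p ∈ antidiagonal M,
        a T ^ p.1 / (p.1.factorial : ℝ) * ((P (U \ T) p.2).eval q / (p.2.factorial : ℝ))) *
        (∑ v ∈ U \ T, l v - q * ∑ v ∈ T, l v) = 0 := by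
      intro M
      have hev : ∀ x : ℝ, (∑ T ∈ U.powerset, (∑ p ∈ antidiagonal M,
          Polynomial.C (a T ^ p.1 / (p.1.factorial : ℝ)) *
            (P (U \ T) p.2 * Polynomial.C ((p.2.factorial : ℝ))⁻¹)) *
          (Polynomial.C (∑ v ∈ U \ T, l v) - Polynomial.X * Polynomial.C (∑ v ∈ T, l v))).eval x =
          ∑ T ∈ U.powerset, (∑ p ∈ antidiagonal M,
            a T ^ p.1 / (p.1.factorial : ℝ) * ((P (U \ T) p.2).eval x / (p.2.factorial : ℝ))) *
          (∑ v ∈ U \ T, l v - x * ∑ v ∈ T, l v) := by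
        intro x
        simp only [Polynomial.eval_finsetSum, Polynomial.eval_mul, Polynomial.eval_C,
          Polynomial.eval_sub, Polynomial.eval_X, div_eq_mul_inv]
      rw [← hev q]
      refine algb_eval_zero _ (fun k => ?_) q
      rw [hev]
      have h := euler_nat a l U k M
      have h' : (∑ T ∈ U.powerset, ∑ f ∈ splits (U \ T) k,
          (a T + ∑ c, a (f c)) ^ M * (∑ v ∈ U \ T, l v - k * ∑ v ∈ T, l v)) /
            (M.factorial : ℝ) = 0 := by rw [h, zero_div]
      rw [← h', sum_div]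
      refine sum_congr rfl fun T _ => ?_
      rw [← sum_mul, mul_div_right_comm, sum_div]
      congr 1
      simp only [h1, sum_div, mul_sum]
      rw [sum_comm]
      exact sum_congr rfl fun f _ => algb_binom _ _ M
    have hterm : ∀ T, Real.exp (a T) * (∑' M : ℕ, (P (U \ T) M).eval q / (M.factorial : ℝ)) *
        (∑ v ∈ U \ T, l v - q * ∑ v ∈ T, l v) = ∑' M : ℕ, (∑ p ∈ antidiagonal M,
          a T ^ p.1 / (p.1.factorial : ℝ) * ((P (U \ T) p.2).eval q / (p.2.factorial : ℝ))) *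
          (∑ v ∈ U \ T, l v - q * ∑ v ∈ T, l v) := by
      intro T
      rw [hexp, tsum_mul_tsum_eq_tsum_sum_antidiagonal_of_summable_norm (hE _) (hs _),
        tsum_mul_right]
    simp only [hterm]
    rw [← Summable.tsum_finsetSum fun T _ =>
      (summable_norm_sum_mul_antidiagonal_of_summable_norm (hE (a T))
        (hs (U \ T))).of_norm.mul_right _]
    simp only [key, tsum_zero]

end Pool.Agent.P.MP_abed8b_co
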