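import Pool.Agent.P.MP_abed8b_co.Alg

set_option autoImplicit false

namespace Pool.Agent.P.MP_abed8b_co

open Finset

section Cone
variable {V : Type} [Fintype V] [DecidableEq V]

theorem Allowed.mono {e e' : ℕ} {a : Finset V → ℝ} (ha : Allowed e a) (h : e ≤ e') :
    Allowed e' a := by
  obtain ⟨β, h0, h1, h2⟩ := ha
  exact ⟨β, h0, fun N hN => (h1 N hN).trans h, h2⟩

theorem Allowed.const (e : ℕ) {r : ℝ} (hr : 0 ≤ r) : Allowed e (fun _ : Finset V => r) := by
  refine ⟨fun N => if N = ∅ then r else 0, fun N => ?_, fun N hN => ?_, fun T => ?_⟩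
  · dsimp only
    split_ifs
    · exact hr
    · exact le_rfl
  · by_cases h : N = ∅
    · simp [h]
    · simp [h] at hN
  · rw [sum_eq_single ∅]
    · simp
    · intro N _ hN
      simp [hN]
    · simp

theorem Allowed.add {e : ℕ} {a b : Finset V → ℝ} (ha : Allowed e a) (hb : Allowed e b) :
    Allowed e (fun T => a T + b T) := by
  obtain ⟨β, h0, h1, h2⟩ := ha
  obtain ⟨γ, k0, k1, k2⟩ := hb
  refine ⟨fun N => β N + γ N, fun N => add_nonneg (h0 N) (k0 N), fun N hN => ?_, fun T => ?_⟩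
  · by_cases h : β N = 0
    · exact k1 N fun h' => hN (by simp [h, h'])
    · exact h1 N h
  · simp only
    rw [h2, k2, ← sum_add_distrib]
    refine sum_congr rfl fun N _ => ?_
    split_ifs <;> simp

theorem Allowed.mul {e e' : ℕ} {a b : Finset V → ℝ} (ha : Allowed e a) (hb : Allowed e' b) :
    Allowed (e + e') (fun T => a T * b T) := by
  obtain ⟨β, h0, h1, h2⟩ := ha
  obtain ⟨γ, k0, k1, k2⟩ := hb
  refine ⟨fun N => ∑ A, ∑ B, if A ∪ B = N then β A * γ B else 0, fun N => ?_, fun N hN => ?_,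
    fun T => ?_⟩
  · refine sum_nonneg fun A _ => sum_nonneg fun B _ => ?_
    split_ifs
    · exact mul_nonneg (h0 A) (k0 B)
    · exact le_rfl
  · obtain ⟨A, _, hA⟩ := exists_ne_zero_of_sum_ne_zero hN
    obtain ⟨B, _, hB⟩ := exists_ne_zero_of_sum_ne_zero hA
    by_cases h : A ∪ B = N
    · rw [if_pos h] at hB
      rw [← h]
      exact (card_union_le A B).trans
        (Nat.add_le_add (h1 A (left_ne_zero_of_mul hB)) (k1 B (right_ne_zero_of_mul hB)))
    · exact absurd (if_neg h) hB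
  · simp only
    have e1 : ∀ N : Finset V,
        (if Disjoint N T then ∑ A, ∑ B, if A ∪ B = N then β A * γ B else 0 else 0) =
          ∑ A, ∑ B, if A ∪ B = N then (if Disjoint N T then β A * γ B else 0) else 0 := by
      intro N
      split_ifs <;> simp
    rw [h2, k2, sum_mul_sum, sum_congr rfl fun N _ => e1 N]
    conv_rhs => rw [sum_comm]
    refine sum_congr rfl fun A _ => ?_
    conv_rhs => rw [sum_comm]
    refine sum_congr rfl fun B _ => ?_
    rw [sum_ite_eq, if_pos (mem_univ _)]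
    by_cases hA : Disjoint A T <;> by_cases hB : Disjoint B T <;>
      simp [disjoint_union_left, hA, hB]

theorem Allowed.point (v : V) : Allowed 1 (fun T : Finset V => if v ∈ T then 0 else 1) := by
  refine ⟨fun N => if N = {v} then 1 else 0, fun N => ?_, fun N hN => ?_, fun T => ?_⟩
  · dsimp only
    split_ifs <;> norm_num
  · by_cases h : N = {v}
    · simp [h]
    · simp [h] at hN
  · rw [sum_eq_single {v}]
    · by_cases h : v ∈ T <;> simp [h]
    · intro N _ hN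
      simp [hN]
    · simp

theorem boxa_congr {e : ℕ} {a b : Finset V → ℝ} (ha : Allowed e a) (h : ∀ T, b T = a T) :
    Allowed e b := by
  rw [show b = a from funext h]
  exact ha

theorem boxa_smul {e : ℕ} {a : Finset V → ℝ} (ha : Allowed e a) {r : ℝ} (hr : 0 ≤ r) :
    Allowed e (fun T => r * a T) := by
  have := (Allowed.const (V := V) 0 hr).mul ha
  rwa [zero_add] at this

theorem boxa_sum {ι : Type} {e : ℕ} (s : Finset ι) (a : ι → Finset V → ℝ)
    (ha : ∀ i ∈ s, Allowed e (a i)) : Allowed e (fun T => ∑ i ∈ s, a i T) := by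
  classical
  induction s using Finset.induction_on with
  | empty => exact boxa_congr (Allowed.const e le_rfl) fun T => by simp
  | insert i s hi ih =>
    exact boxa_congr ((ha i (mem_insert_self i s)).add
      (ih fun j hj => ha j (mem_insert_of_mem hj))) fun T => by rw [sum_insert hi]

theorem boxa_prod {ι : Type} {e : ℕ} (s : Finset ι) (a : ι → Finset V → ℝ)
    (ha : ∀ i ∈ s, Allowed e (a i)) : Allowed (s.card * e) (fun T => ∏ i ∈ s, a i T) := by
  classical
  induction s using Finset.induction_on with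
  | empty => exact boxa_congr (Allowed.const _ zero_le_one) fun T => by simp
  | insert i s hi ih =>
    have h1 := (ha i (mem_insert_self i s)).mul (ih fun j hj => ha j (mem_insert_of_mem hj))
    rw [card_insert_of_notMem hi, add_mul, one_mul, add_comm]
    exact boxa_congr h1 fun T => by rw [prod_insert hi]

theorem boxa_pow {a : Finset V → ℝ} (ha : Allowed 1 a) (k : ℕ) :
    Allowed k (fun T => a T ^ k) := by
  have := boxa_prod (range k) (fun _ => a) fun _ _ => ha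
  rw [card_range, mul_one] at this
  exact boxa_congr this fun T => by simp

end Cone

theorem boxa_lin (m n : ℕ) (hn : 0 < n) {p : ℝ} (hp0 : 0 ≤ p) (hp1 : p ≤ 1) (i : Fin m) :
    Allowed 1 (fun T : Finset (Fin m × Fin n) =>
      1 - p * (((T.filter fun v => v.1 = i).card : ℝ) / (n : ℝ))) := by
  have hn' : (0 : ℝ) < n := by exact_mod_cast hn
  have h1 := boxa_sum (univ : Finset (Fin n))
    (fun j (T : Finset (Fin m × Fin n)) => if (i, j) ∈ T then (0 : ℝ) else 1)
    fun j _ => Allowed.point (i, j)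
  refine boxa_congr ((Allowed.const 1 (sub_nonneg.2 hp1)).add
    (boxa_smul h1 (div_nonneg hp0 hn'.le))) fun T => ?_
  have e1 : (T.filter fun v => v.1 = i).card = (univ.filter fun j : Fin n => (i, j) ∈ T).card := by
    refine card_bij (fun v _ => v.2) ?_ ?_ ?_
    · rintro ⟨a, b⟩ hv
      obtain ⟨h2, h3⟩ := mem_filter.1 hv
      simp only at h3
      subst h3
      simpa using h2
    · rintro ⟨a, b⟩ hv ⟨a', b'⟩ hv' h
      have h3 := (mem_filter.1 hv).2
      have h4 := (mem_filter.1 hv').2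
      simp only at h3 h4 h
      rw [h3, h4, h]
    · intro j hj
      exact ⟨(i, j), mem_filter.2 ⟨(mem_filter.1 hj).2, rfl⟩, rfl⟩
  have e2 : ∑ j : Fin n, (if (i, j) ∈ T then (0 : ℝ) else 1) =
      n - ((univ.filter fun j : Fin n => (i, j) ∈ T).card : ℝ) := by
    rw [card_filter]
    push_cast
    rw [eq_sub_iff_add_eq, ← sum_add_distrib]
    rw [sum_congr rfl (g := fun _ => (1 : ℝ)) fun j _ => by split_ifs <;> simp]
    simp
  rw [e1, e2]
  field_simp
  ring

theorem boxa_allowed (m n d u : ℕ) (hn : 0 < n) (hd : m * u ≤ d) (τ τ' p : ℝ)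
    (hτ : 0 ≤ τ) (hτ' : 0 ≤ τ') (hp0 : 0 ≤ p) (hp1 : p ≤ 1) :
    Allowed d (fun T : Finset (Fin m × Fin n) =>
      τ * ∑ i, (1 - ((T.filter fun v => v.1 = i).card : ℝ) / (n : ℝ)) ^ d +
        τ' * ∏ i, (1 - p * (((T.filter fun v => v.1 = i).card : ℝ) / (n : ℝ))) ^ u) := by
  refine Allowed.add (boxa_smul (boxa_sum univ _ fun i _ => boxa_pow ?_ d) hτ) (boxa_smul ?_ hτ')
  · exact boxa_congr (boxa_lin m n hn zero_le_one le_rfl i) fun T => by rw [one_mul]
  · have h1 := boxa_prod (univ : Finset (Fin m)) _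
      fun i _ => boxa_pow (boxa_lin m n hn hp0 hp1 i) u
    rw [card_univ, Fintype.card_fin] at h1
    exact h1.mono hd

theorem boxa_supermod {m : ℕ} {L : Type} [LinearOrder L] (f : L → ℝ) (h0 : ∀ x, 0 ≤ f x)
    (hf : Antitone f) (s t : Fin m → L) :
    ∏ i, f (s i) + ∏ i, f (t i) ≤ ∏ i, f ((s ⊓ t) i) + ∏ i, f ((s ⊔ t) i) := by
  have e : ∀ g : Fin m → ℝ, ∏ i, g i = (∏ i ∈ univ.filter (fun i => s i ≤ t i), g i) *
      ∏ i ∈ univ.filter (fun i => ¬s i ≤ t i), g i :=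
    fun g => (prod_filter_mul_prod_filter_not _ _ _).symm
  have e1 : ∏ i ∈ univ.filter (fun i => s i ≤ t i), f ((s ⊓ t) i) =
      ∏ i ∈ univ.filter (fun i => s i ≤ t i), f (s i) :=
    prod_congr rfl fun i hi => by rw [Pi.inf_apply, inf_of_le_left (mem_filter.1 hi).2]
  have e2 : ∏ i ∈ univ.filter (fun i => ¬s i ≤ t i), f ((s ⊓ t) i) =
      ∏ i ∈ univ.filter (fun i => ¬s i ≤ t i), f (t i) :=
    prod_congr rfl fun i hi => by
      rw [Pi.inf_apply, inf_of_le_right (not_le.1 (mem_filter.1 hi).2).le]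
  have e3 : ∏ i ∈ univ.filter (fun i => s i ≤ t i), f ((s ⊔ t) i) =
      ∏ i ∈ univ.filter (fun i => s i ≤ t i), f (t i) :=
    prod_congr rfl fun i hi => by rw [Pi.sup_apply, sup_of_le_right (mem_filter.1 hi).2]
  have e4 : ∏ i ∈ univ.filter (fun i => ¬s i ≤ t i), f ((s ⊔ t) i) =
      ∏ i ∈ univ.filter (fun i => ¬s i ≤ t i), f (s i) :=
    prod_congr rfl fun i hi => by
      rw [Pi.sup_apply, sup_of_le_left (not_le.1 (mem_filter.1 hi).2).le]
  have h1 : ∏ i ∈ univ.filter (fun i => s i ≤ t i), f (t i) ≤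
      ∏ i ∈ univ.filter (fun i => s i ≤ t i), f (s i) :=
    prod_le_prod (fun i _ => h0 _) fun i hi => hf (mem_filter.1 hi).2
  have h2 : ∏ i ∈ univ.filter (fun i => ¬s i ≤ t i), f (s i) ≤
      ∏ i ∈ univ.filter (fun i => ¬s i ≤ t i), f (t i) :=
    prod_le_prod (fun i _ => h0 _) fun i hi => hf (not_le.1 (mem_filter.1 hi).2).le
  rw [e fun i => f (s i), e fun i => f (t i), e fun i => f ((s ⊓ t) i), e fun i => f ((s ⊔ t) i),
    e1, e2, e3, e4]
  nlinarith [mul_nonneg (sub_nonneg.2 h1) (sub_nonneg.2 h2)]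

theorem boxa_mod {m : ℕ} {L : Type} [LinearOrder L] (g : L → ℝ) (s t : Fin m → L) :
    (∏ i, g (s i)) * ∏ i, g (t i) = (∏ i, g ((s ⊓ t) i)) * ∏ i, g ((s ⊔ t) i) := by
  rw [← prod_mul_distrib, ← prod_mul_distrib]
  refine prod_congr rfl fun i _ => ?_
  rw [Pi.inf_apply, Pi.sup_apply]
  rcases le_total (s i) (t i) with h | h
  · rw [inf_of_le_left h, sup_of_le_right h]
  · rw [inf_of_le_right h, sup_of_le_left h, mul_comm]

/-- Weight of a colour class with `t i` vertices in cluster `i`: `m` clusters of `n` vertices,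
hyperedges of size `d` inside each cluster (total weight `τ`), hyperedges with `u` slots in every
cluster, each slot used with probability `p` (total weight `τ'`), fugacity `exp r`. -/
noncomputable def phi (m n d u : ℕ) (τ τ' p r : ℝ) (t : Fin m → Fin (n + 1)) : ℝ :=
  Real.exp (τ' * ∏ i, (1 - p * ((t i : ℕ) / (n : ℝ))) ^ u) *
    ∏ i, (Real.exp (τ * (1 - ((t i : ℕ) / (n : ℝ))) ^ d + r * (t i : ℕ)) /
      ((t i : ℕ).factorial : ℝ))

/-- The Euler identity on the box. -/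
def EulerId {m n : ℕ} (q : ℝ) (c φ : (Fin m → Fin (n + 1)) → ℝ) : Prop :=
  ∀ (f : (Fin m → ℕ) → ℂ) (l : Fin m → ℝ),
    ∑ s : Fin m → Fin (n + 1), ∑ t : Fin m → Fin (n + 1),
      (if ∀ i, (s i : ℕ) + (t i : ℕ) ≤ n then
        ((c s * φ t * (∑ i, l i * (s i : ℕ) - q * ∑ i, l i * (t i : ℕ)) : ℝ) : ℂ) *
          f (fun i => (s i : ℕ) + (t i : ℕ)) else 0) = 0

theorem phi_pos (m n d u : ℕ) (τ τ' p r : ℝ) (t : Fin m → Fin (n + 1)) :
    0 < phi m n d u τ τ' p r t := by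
  unfold phi
  positivity

/-- The weight is log-supermodular. -/
theorem phi_sup (m n d u : ℕ) (hn : 0 < n) (τ τ' p r : ℝ) (hτ' : 0 ≤ τ') (hp0 : 0 ≤ p)
    (hp1 : p ≤ 1) (s t : Fin m → Fin (n + 1)) :
    phi m n d u τ τ' p r s * phi m n d u τ τ' p r t ≤
      phi m n d u τ τ' p r (s ⊓ t) * phi m n d u τ τ' p r (s ⊔ t) := by
  have hn' : (0 : ℝ) < n := by exact_mod_cast hn
  have hb : ∀ x : Fin (n + 1), 0 ≤ 1 - p * (((x : ℕ) : ℝ) / (n : ℝ)) := by
    intro x
    have h1 : ((x : ℕ) : ℝ) ≤ n := by exact_mod_cast Nat.lt_succ_iff.1 x.2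
    have h2 : ((x : ℕ) : ℝ) / n ≤ 1 := (div_le_one hn').2 h1
    have h3 : p * (((x : ℕ) : ℝ) / n) ≤ 1 := mul_le_one₀ hp1 (by positivity) h2
    linarith
  have h1 := boxa_supermod (fun x : Fin (n + 1) => (1 - p * (((x : ℕ) : ℝ) / (n : ℝ))) ^ u)
    (fun x => pow_nonneg (hb x) u) (fun x y hxy => by
      refine pow_le_pow_left₀ (hb y) ?_ u
      have h1 : ((x : ℕ) : ℝ) ≤ (y : ℕ) := by exact_mod_cast hxy
      have h2 : ((x : ℕ) : ℝ) / n ≤ (y : ℕ) / n := div_le_div_of_nonneg_right h1 hn'.le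
      have h3 := mul_le_mul_of_nonneg_left h2 hp0
      linarith) s t
  have h2 := boxa_mod (fun x : Fin (n + 1) =>
    Real.exp (τ * (1 - ((x : ℕ) / (n : ℝ))) ^ d + r * (x : ℕ)) / ((x : ℕ).factorial : ℝ)) s t
  unfold phi
  rw [mul_mul_mul_comm, h2]
  conv_rhs => rw [mul_mul_mul_comm]
  rw [← Real.exp_add, ← Real.exp_add]
  refine mul_le_mul_of_nonneg_right (Real.exp_le_exp.2 ?_) (by positivity)
  rw [← mul_add, ← mul_add]
  exact mul_le_mul_of_nonneg_left h1 hτ'

/-- The number of vertices of `T` in each cluster. -/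
def boxbCnt {m n : ℕ} (T : Finset (Fin m × Fin n)) (i : Fin m) : ℕ :=
  (T.filter fun v => v.1 = i).card

/-- The fibre of `T` over a cluster. -/
def boxbFib {m n : ℕ} (T : Finset (Fin m × Fin n)) (i : Fin m) : Finset (Fin n) :=
  univ.filter fun j => (i, j) ∈ T

theorem boxb_cnt_eq {m n : ℕ} (T : Finset (Fin m × Fin n)) (i : Fin m) :
    boxbCnt T i = (boxbFib T i).card := by
  unfold boxbCnt boxbFib
  refine card_bij (fun v _ => v.2) ?_ ?_ ?_
  · rintro ⟨a, b⟩ hv
    obtain ⟨h2, h3⟩ := mem_filter.1 hv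
    simp only at h3
    subst h3
    simpa using h2
  · rintro ⟨a, b⟩ hv ⟨a', b'⟩ hv' h
    have h3 := (mem_filter.1 hv).2
    have h4 := (mem_filter.1 hv').2
    simp only at h3 h4 h
    rw [h3, h4, h]
  · intro j hj
    exact ⟨(i, j), mem_filter.2 ⟨(mem_filter.1 hj).2, rfl⟩, rfl⟩

theorem boxb_cnt_le {m n : ℕ} (T : Finset (Fin m × Fin n)) (i : Fin m) : boxbCnt T i ≤ n := by
  rw [boxb_cnt_eq]
  simpa using card_le_univ (boxbFib T i)

/-- The counts as a point of the box. -/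
def boxbPt {m n : ℕ} (T : Finset (Fin m × Fin n)) (i : Fin m) : Fin (n + 1) :=
  ⟨boxbCnt T i, Nat.lt_succ_of_le (boxb_cnt_le T i)⟩

theorem boxb_pt_val {m n : ℕ} (T : Finset (Fin m × Fin n)) (i : Fin m) :
    (boxbPt T i : ℕ) = boxbCnt T i := rfl

theorem boxb_cnt_union {m n : ℕ} {S T : Finset (Fin m × Fin n)} (h : Disjoint S T) (i : Fin m) :
    boxbCnt (S ∪ T) i = boxbCnt S i + boxbCnt T i := by
  unfold boxbCnt
  rw [filter_union, card_union_of_disjoint (disjoint_filter_filter h)]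

theorem boxb_sum_l {m n : ℕ} (T : Finset (Fin m × Fin n)) (l : Fin m → ℝ) :
    ∑ v ∈ T, l v.1 = ∑ i, l i * (boxbCnt T i : ℝ) := by
  rw [← sum_fiberwise T (fun v => v.1) (fun v => l v.1)]
  refine sum_congr rfl fun i _ => ?_
  rw [sum_congr rfl (g := fun _ => l i) fun v hv => by rw [(mem_filter.1 hv).2], sum_const,
    nsmul_eq_mul, mul_comm]
  rfl

theorem boxb_count {m n : ℕ} (S : Finset (Fin m × Fin n)) (t : Fin m → Fin (n + 1)) :
    (univ.filter fun T : Finset (Fin m × Fin n) => boxbPt T = t ∧ Disjoint S T).card =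
      ∏ i, (n - boxbCnt S i).choose (t i) := by
  have e : ∏ i, (n - boxbCnt S i).choose (t i) =
      (Fintype.piFinset fun i => powersetCard (t i) (boxbFib S i)ᶜ).card := by
    rw [Fintype.card_piFinset]
    refine prod_congr rfl fun i _ => ?_
    rw [card_powersetCard, card_compl, Fintype.card_fin, boxb_cnt_eq]
  rw [e]
  refine card_bij' (fun T _ => boxbFib T) (fun g _ => univ.filter fun v => v.2 ∈ g v.1)
    ?_ ?_ ?_ ?_
  · intro T hT
    obtain ⟨h1, h2⟩ := (mem_filter.1 hT).2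
    refine Fintype.mem_piFinset.2 fun i => mem_powersetCard.2 ⟨fun j hj => ?_, ?_⟩
    · rw [mem_compl]
      intro hj'
      exact disjoint_left.1 h2 (mem_filter.1 hj').2 (mem_filter.1 hj).2
    · rw [← boxb_cnt_eq, ← h1, boxb_pt_val]
  · intro g hg
    have hg' := fun i => mem_powersetCard.1 (Fintype.mem_piFinset.1 hg i)
    refine mem_filter.2 ⟨mem_univ _, funext fun i => Fin.ext ?_, disjoint_left.2 ?_⟩
    · rw [boxb_pt_val, boxb_cnt_eq, ← (hg' i).2]
      congr 1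
      ext j
      simp [boxbFib]
    · rintro ⟨i, j⟩ h1 h2
      have h3 := (hg' i).1 (mem_filter.1 h2).2
      rw [mem_compl] at h3
      exact h3 (mem_filter.2 ⟨mem_univ _, h1⟩)
  · intro T _
    ext ⟨i, j⟩
    simp [boxbFib]
  · intro g _
    funext i
    ext j
    simp [boxbFib]

theorem boxb_sum_disj {m n : ℕ} (S : Finset (Fin m × Fin n)) (K : (Fin m → Fin (n + 1)) → ℂ) :
    ∑ T : Finset (Fin m × Fin n), (if Disjoint S T then K (boxbPt T) else 0) =
      ∑ t : Fin m → Fin (n + 1), ((∏ i, (n - boxbCnt S i).choose (t i) : ℕ) : ℂ) * K t := by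
  rw [← sum_fiberwise univ (fun T : Finset (Fin m × Fin n) => boxbPt T)]
  refine sum_congr rfl fun t _ => ?_
  rw [← boxb_count, ← filter_filter, ← nsmul_eq_mul, ← sum_const,
    sum_filter (p := fun T => Disjoint S T)]
  refine sum_congr rfl fun T hT => ?_
  rw [(mem_filter.1 hT).2]

theorem boxb_reindex {V : Type} [Fintype V] [DecidableEq V] (F : Finset V → Finset V → ℂ) :
    ∑ U : Finset V, ∑ T ∈ U.powerset, F (U \ T) T =
      ∑ S : Finset V, ∑ T : Finset V, if Disjoint S T then F S T else 0 := by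
  rw [sum_sigma', sum_congr rfl fun S _ => (sum_filter (fun T => Disjoint S T) (F S)).symm,
    sum_sigma']
  refine sum_bij' (fun x _ => ⟨x.1 \ x.2, x.2⟩) (fun x _ => ⟨x.1 ∪ x.2, x.2⟩) ?_ ?_ ?_ ?_ ?_
  · rintro ⟨U, T⟩ _
    simp [sdiff_disjoint]
  · rintro ⟨S, T⟩ _
    exact mem_sigma.2 ⟨mem_univ _, mem_powerset.2 subset_union_right⟩
  · rintro ⟨U, T⟩ h
    have h1 : T ⊆ U := by simpa using h
    simp [h1]
  · rintro ⟨S, T⟩ h
    have h1 : Disjoint S T := by simpa using h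
    simp [union_sdiff_right, sdiff_eq_self_of_disjoint h1]
  · rintro ⟨U, T⟩ _
    rfl

theorem boxb_fact {m n : ℕ} (s t : Fin m → Fin (n + 1)) (h : ∀ i, (s i : ℕ) + (t i : ℕ) ≤ n) :
    ((∏ i, (n - (s i : ℕ)).choose (t i) : ℕ) : ℝ) *
        ∏ i, ((n - ((s i : ℕ) + (t i : ℕ))).factorial : ℝ) =
      (∏ i, ((n - (s i : ℕ)).factorial : ℝ)) * ∏ i, (((t i : ℕ).factorial : ℝ))⁻¹ := by
  push_cast
  rw [← prod_mul_distrib, ← prod_mul_distrib]
  refine prod_congr rfl fun i _ => ?_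
  have h1 : (t i : ℕ) ≤ n - s i := by have := h i; omega
  have h2 := Nat.choose_mul_factorial_mul_factorial h1
  rw [Nat.sub_sub] at h2
  have h3 : (((t i : ℕ).factorial : ℕ) : ℝ) ≠ 0 := by positivity
  rw [← h2]
  push_cast
  field_simp

theorem exists_c (hC : Conj) (m n d u : ℕ) (hn : 0 < n) (hd : m * u ≤ d) (τ τ' p r q : ℝ)
    (hτ : 0 ≤ τ) (hτ' : 0 ≤ τ') (hp0 : 0 ≤ p) (hp1 : p ≤ 1) (hq : (d : ℝ) < q) (hq1 : 1 ≤ q) :
    ∃ c : (Fin m → Fin (n + 1)) → ℝ, (∀ s, 0 ≤ c s) ∧ 0 < c 0 ∧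
      EulerId q c (phi m n d u τ τ' p r) := by
  obtain ⟨Z, hZ0, hZ1, hZ⟩ :=
    exists_Z hC d q hq hq1 _ (boxa_allowed m n d u hn hd τ τ' p hτ hτ' hp0 hp1)
  set A : (Fin m → Fin (n + 1)) → ℝ := fun t =>
    τ * ∑ i, (1 - ((t i : ℕ) : ℝ) / (n : ℝ)) ^ d +
      τ' * ∏ i, (1 - p * (((t i : ℕ) : ℝ) / (n : ℝ))) ^ u with hA
  have hZ' : ∀ (U : Finset (Fin m × Fin n)) (l : Fin m × Fin n → ℝ), ∑ T ∈ U.powerset,
      Real.exp (A (boxbPt T)) * Z (U \ T) * (∑ v ∈ U \ T, l v - q * ∑ v ∈ T, l v) = 0 := hZ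
  have hphi : ∀ t, phi m n d u τ τ' p r t = Real.exp (A t) * Real.exp (r * ∑ i, ((t i : ℕ) : ℝ)) *
      ∏ i, (((t i : ℕ).factorial : ℝ))⁻¹ := by
    intro t
    unfold phi
    simp only [hA, div_eq_mul_inv (Real.exp _)]
    rw [prod_mul_distrib, ← Real.exp_sum, sum_add_distrib, ← mul_sum, ← mul_sum, ← mul_assoc,
      ← Real.exp_add, ← Real.exp_add]
    congr 2
    ring
  refine ⟨fun s => Real.exp (r * ∑ i, ((s i : ℕ) : ℝ)) * (∏ i, ((n - (s i : ℕ)).factorial : ℝ)) *
    ∑ S ∈ univ.filter (fun S => boxbPt S = s), Z S, fun s => ?_, ?_, fun f l => ?_⟩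
  · exact mul_nonneg (by positivity) (sum_nonneg fun S _ => hZ0 S)
  · refine mul_pos (by positivity) (sum_pos' (fun S _ => hZ0 S) ⟨∅, ?_, hZ1⟩)
    refine mem_filter.2 ⟨mem_univ _, funext fun i => Fin.ext ?_⟩
    simp [boxb_pt_val, boxbCnt]
  · set g : (Fin m → ℕ) → ℂ := fun w =>
      ((Real.exp (r * ∑ i, (w i : ℝ)) * ∏ i, ((n - w i).factorial : ℝ) : ℝ) : ℂ) * f w with hg
    set H : (Fin m → Fin (n + 1)) → (Fin m → Fin (n + 1)) → ℂ := fun s t =>
      ((Real.exp (A t) * (∑ i, l i * (s i : ℕ) - q * ∑ i, l i * (t i : ℕ)) : ℝ) : ℂ) *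
        g (fun i => (s i : ℕ) + (t i : ℕ)) with hH
    have h1 : ∑ U : Finset (Fin m × Fin n), ∑ T ∈ U.powerset,
        (Z (U \ T) : ℂ) * H (boxbPt (U \ T)) (boxbPt T) = 0 := by
      refine sum_eq_zero fun U _ => ?_
      have h2 := congrArg (fun x : ℝ => (x : ℂ) * g (boxbCnt U)) (hZ' U fun v => l v.1)
      simp only [Complex.ofReal_zero, zero_mul] at h2
      rw [← h2, Complex.ofReal_sum, sum_mul]
      refine sum_congr rfl fun T hT => ?_
      have h3 : (fun i => (boxbPt (U \ T) i : ℕ) + (boxbPt T i : ℕ)) = boxbCnt U := by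
        funext i
        rw [boxb_pt_val, boxb_pt_val, ← boxb_cnt_union sdiff_disjoint,
          sdiff_union_of_subset (mem_powerset.1 hT)]
      simp only [hH]
      rw [h3, boxb_sum_l, boxb_sum_l]
      simp only [boxb_pt_val]
      push_cast
      ring
    rw [boxb_reindex (fun S T => (Z S : ℂ) * H (boxbPt S) (boxbPt T)),
      sum_congr rfl fun S _ => boxb_sum_disj S (fun t => (Z S : ℂ) * H (boxbPt S) t),
      ← sum_fiberwise univ (fun S : Finset (Fin m × Fin n) => boxbPt S)] at h1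
    refine Eq.trans ?_ h1
    refine sum_congr rfl fun s _ => ?_
    rw [sum_comm]
    refine sum_congr rfl fun t _ => ?_
    have h4 : ∑ S ∈ univ.filter (fun S : Finset (Fin m × Fin n) => boxbPt S = s),
        ((∏ i, (n - boxbCnt S i).choose (t i) : ℕ) : ℂ) * ((Z S : ℂ) * H (boxbPt S) t) =
        ((∑ S ∈ univ.filter (fun S : Finset (Fin m × Fin n) => boxbPt S = s), Z S : ℝ) : ℂ) *
          (((∏ i, (n - (s i : ℕ)).choose (t i) : ℕ) : ℂ) * H s t) := by
      rw [Complex.ofReal_sum, sum_mul]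
      refine sum_congr rfl fun S hS => ?_
      rw [← (mem_filter.1 hS).2]
      simp only [boxb_pt_val]
      ring
    rw [h4]
    split_ifs with hv
    · have h5 := congrArg (fun x : ℝ => (x : ℂ)) (boxb_fact s t hv)
      simp only [hH, hg, hphi]
      have h6 : Real.exp (r * ∑ i, (((s i : ℕ) + (t i : ℕ) : ℕ) : ℝ)) =
          Real.exp (r * ∑ i, ((s i : ℕ) : ℝ)) * Real.exp (r * ∑ i, ((t i : ℕ) : ℝ)) := by
        rw [← Real.exp_add, ← mul_add, ← sum_add_distrib]
        push_cast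
        rfl
      rw [h6]
      simp only [Complex.ofReal_mul, Complex.ofReal_natCast] at h5 ⊢
      linear_combination
        -((∑ S ∈ univ.filter (fun S : Finset (Fin m × Fin n) => boxbPt S = s), Z S : ℝ) : ℂ) *
          (Real.exp (A t) : ℂ) * ((∑ i, l i * (s i : ℕ) - q * ∑ i, l i * (t i : ℕ) : ℝ) : ℂ) *
          (Real.exp (r * ∑ i, ((s i : ℕ) : ℝ)) : ℂ) * (Real.exp (r * ∑ i, ((t i : ℕ) : ℝ)) : ℂ) *
          f (fun i => (s i : ℕ) + (t i : ℕ)) * h5
    · obtain ⟨i, hi⟩ := not_forall.1 hv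
      have h7 : ∏ i, (n - (s i : ℕ)).choose (t i) = 0 :=
        prod_eq_zero (mem_univ i) (Nat.choose_eq_zero_of_lt (by have := (s i).2; omega))
      rw [h7]
      simp

end Pool.Agent.P.MP_abed8b_co
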