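import Pool.Agent.P.MP_abed8b_co.Box
import Pool.Agent.P.MP_abed8b_co.Mono

set_option autoImplicit false

namespace Pool.Agent.P.MP_abed8b_co

open Finset

/-- Total size. -/
noncomputable def tot {m n : ℕ} (t : Fin m → Fin (n + 1)) : ℝ := ∑ i, ((t i : ℕ) : ℝ)

theorem corea_tot {m n : ℕ} (a b : Fin m → Fin (n + 1)) :
    tot (a ⊓ b) + tot (a ⊔ b) = tot a + tot b := by
  unfold tot
  rw [← sum_add_distrib, ← sum_add_distrib]
  refine sum_congr rfl fun j _ => ?_
  rcases le_total (a j) (b j) with h | h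
  · simp only [Pi.inf_apply, Pi.sup_apply, inf_of_le_left h, sup_of_le_right h]
  · simp only [Pi.inf_apply, Pi.sup_apply, inf_of_le_right h, sup_of_le_left h, add_comm]

theorem corea_coord {m n : ℕ} (a b : Fin m → Fin (n + 1)) (i : Fin m) :
    ((((a ⊓ b) i : ℕ) : ℝ)) + (((a ⊔ b) i : ℕ) : ℝ) = ((a i : ℕ) : ℝ) + ((b i : ℕ) : ℝ) := by
  rcases le_total (a i) (b i) with h | h
  · simp only [Pi.inf_apply, Pi.sup_apply, inf_of_le_left h, sup_of_le_right h]
  · simp only [Pi.inf_apply, Pi.sup_apply, inf_of_le_right h, sup_of_le_left h, add_comm]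

/-- negative correlation of a coordinate with the down-set of classes that fit next to `s` -/
theorem corea_fkg {m n : ℕ} (w : (Fin m → Fin (n + 1)) → ℝ) (hw : ∀ t, 0 ≤ w t)
    (hsup : ∀ s t, w s * w t ≤ w (s ⊓ t) * w (s ⊔ t)) (s : Fin m → Fin (n + 1)) (i : Fin m) :
    (∑ t, (if ∀ j, (s j : ℕ) + (t j : ℕ) ≤ n then w t else 0) * ((t i : ℕ) : ℝ)) * ∑ t, w t
      ≤ (∑ t, (if ∀ j, (s j : ℕ) + (t j : ℕ) ≤ n then w t else 0)) *
        ∑ t, w t * ((t i : ℕ) : ℝ) := by
  refine four_functions_theorem_univ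
    (fun t : Fin m → Fin (n + 1) =>
      (if ∀ j, (s j : ℕ) + (t j : ℕ) ≤ n then w t else 0) * ((t i : ℕ) : ℝ)) w
    (fun t : Fin m → Fin (n + 1) => if ∀ j, (s j : ℕ) + (t j : ℕ) ≤ n then w t else 0)
    (fun t : Fin m → Fin (n + 1) => w t * ((t i : ℕ) : ℝ)) (fun t => ?_) hw (fun t => ?_)
    (fun t => ?_) fun a b => ?_
  · refine mul_nonneg ?_ (Nat.cast_nonneg _)
    split_ifs
    · exact hw t
    · exact le_rfl
  · dsimp only [Pi.zero_apply]
    split_ifs
    · exact hw t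
    · exact le_rfl
  · exact mul_nonneg (hw t) (Nat.cast_nonneg _)
  · by_cases ha : ∀ j, (s j : ℕ) + (a j : ℕ) ≤ n
    · have hab : ∀ j, (s j : ℕ) + ((a ⊓ b) j : ℕ) ≤ n := fun j => by
        have h1 : (a ⊓ b) j ≤ a j := (inf_le_left : a ⊓ b ≤ a) j
        have h2 : ((a ⊓ b) j : ℕ) ≤ (a j : ℕ) := h1
        exact (Nat.add_le_add_left h2 _).trans (ha j)
      rw [if_pos ha, if_pos hab]
      have h1 : a i ≤ (a ⊔ b) i := (le_sup_left : a ≤ a ⊔ b) i
      have h2 : ((a i : ℕ) : ℝ) ≤ (((a ⊔ b) i : ℕ) : ℝ) := by exact_mod_cast h1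
      calc w a * ((a i : ℕ) : ℝ) * w b = (w a * w b) * ((a i : ℕ) : ℝ) := by ring
        _ ≤ (w (a ⊓ b) * w (a ⊔ b)) * (((a ⊔ b) i : ℕ) : ℝ) :=
          mul_le_mul (hsup a b) h2 (Nat.cast_nonneg _) (mul_nonneg (hw _) (hw _))
        _ = _ := by ring
    · rw [if_neg ha, zero_mul, zero_mul]
      refine mul_nonneg ?_ (mul_nonneg (hw _) (Nat.cast_nonneg _))
      split_ifs
      · exact hw _
      · exact le_rfl

/-- the Euler identity for the tilted weights -/
theorem corea_euler {m n : ℕ} (q : ℝ) (c φ : (Fin m → Fin (n + 1)) → ℝ) (hid : EulerId q c φ)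
    (x z : ℝ) (i : Fin m) :
    ∑ s, ∑ t, (if ∀ j, (s j : ℕ) + (t j : ℕ) ≤ n then
        c s * φ t * Real.exp (x * (tot s + tot t)) else 0) *
          Real.exp (z * (((s i : ℕ) : ℝ) + (t i : ℕ))) * (((s i : ℕ) : ℝ) - q * (t i : ℕ)) = 0 := by
  have h := hid (fun u => ((Real.exp (x * ∑ j, (u j : ℝ)) * Real.exp (z * (u i : ℝ)) : ℝ) : ℂ))
    (Pi.single i 1)
  rw [← Complex.ofReal_eq_zero, Complex.ofReal_sum]
  refine Eq.trans (sum_congr rfl fun s _ => ?_) h
  rw [Complex.ofReal_sum]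
  refine sum_congr rfl fun t _ => ?_
  split_ifs with hv
  · rw [← Complex.ofReal_mul]
    congr 1
    have e1 : ∀ u : Fin m → Fin (n + 1),
        ∑ j, (Pi.single i (1 : ℝ) : Fin m → ℝ) j * ((u j : ℕ) : ℝ) = ((u i : ℕ) : ℝ) := by
      intro u
      rw [sum_eq_single i]
      · simp
      · intro j _ hj
        simp [hj]
      · simp
    have e2 : ∑ j, ((((s j : ℕ) + (t j : ℕ) : ℕ)) : ℝ) = tot s + tot t := by
      simp only [tot, Nat.cast_add, sum_add_distrib]
    rw [e1 s, e1 t, e2, Nat.cast_add]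
    ring
  · simp

/-- Chernoff bound from the Euler identity and the FKG inequality. -/
theorem chernoff {m n : ℕ} (q : ℝ) (hq0 : 0 ≤ q) (c φ : (Fin m → Fin (n + 1)) → ℝ)
    (hc : ∀ s, 0 ≤ c s) (hc0 : 0 < c 0) (hφ : ∀ t, 0 < φ t)
    (hsup : ∀ s t, φ s * φ t ≤ φ (s ⊓ t) * φ (s ⊔ t)) (hid : EulerId q c φ)
    (x lam y M0 : ℝ) (hlam : 0 ≤ lam) (i : Fin m)
    (hmgf : ∑ t, φ t * Real.exp (x * tot t) * Real.exp (lam * (t i : ℕ))
      ≤ M0 * ∑ t, φ t * Real.exp (x * tot t)) :
    ∑ s, ∑ t, (if (∀ j, (s j : ℕ) + (t j : ℕ) ≤ n) ∧ y < (s i : ℕ) then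
        c s * φ t * Real.exp (x * (tot s + tot t)) else 0)
      ≤ Real.exp (-(lam * y) + (q + 1) * Real.log M0) *
        ∑ s, ∑ t, (if ∀ j, (s j : ℕ) + (t j : ℕ) ≤ n then
          c s * φ t * Real.exp (x * (tot s + tot t)) else 0) := by
  set A : (Fin m → Fin (n + 1)) → (Fin m → Fin (n + 1)) → ℝ := fun s t =>
    if ∀ j, (s j : ℕ) + (t j : ℕ) ≤ n then c s * φ t * Real.exp (x * (tot s + tot t)) else 0
    with hA
  have hA0 : ∀ s t, 0 ≤ A s t := fun s t => by
    simp only [hA]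
    split_ifs
    · exact mul_nonneg (mul_nonneg (hc s) (hφ t).le) (Real.exp_pos _).le
    · exact le_rfl
  set Z : ℝ → ℝ := fun z => ∑ s, ∑ t, A s t * Real.exp (z * (((s i : ℕ) : ℝ) + (t i : ℕ)))
    with hZ
  set Z' : ℝ → ℝ := fun z => ∑ s, ∑ t, A s t * Real.exp (z * (((s i : ℕ) : ℝ) + (t i : ℕ))) *
    (((s i : ℕ) : ℝ) + (t i : ℕ)) with hZ'
  set w : ℝ → (Fin m → Fin (n + 1)) → ℝ := fun z t =>
    φ t * Real.exp (x * tot t) * Real.exp (z * (t i : ℕ)) with hw
  set F : ℝ → ℝ := fun z => ∑ t, w z t with hF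
  set F' : ℝ → ℝ := fun z => ∑ t, w z t * ((t i : ℕ) : ℝ) with hF'
  have hw0 : ∀ z t, 0 < w z t := fun z t =>
    mul_pos (mul_pos (hφ t) (Real.exp_pos _)) (Real.exp_pos _)
  have hF0 : ∀ z, 0 < F z := fun z => sum_pos (fun t _ => hw0 z t) univ_nonempty
  have hZ0 : ∀ z, 0 < Z z := fun z => by
    refine sum_pos' (fun s _ => sum_nonneg fun t _ => mul_nonneg (hA0 s t) (Real.exp_pos _).le)
      ⟨0, mem_univ _, ?_⟩
    refine sum_pos' (fun t _ => mul_nonneg (hA0 0 t) (Real.exp_pos _).le) ⟨0, mem_univ _, ?_⟩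
    refine mul_pos ?_ (Real.exp_pos _)
    simp only [hA]
    rw [if_pos fun j => by simp]
    exact mul_pos (mul_pos hc0 (hφ 0)) (Real.exp_pos _)
  have hdZ : ∀ z, HasDerivAt Z (Z' z) z := fun z => by
    refine HasDerivAt.fun_sum fun s _ => HasDerivAt.fun_sum fun t _ => ?_
    have := (((hasDerivAt_id z).mul_const (((s i : ℕ) : ℝ) + (t i : ℕ))).exp).const_mul (A s t)
    simpa only [id, one_mul, mul_assoc] using this
  have hdF : ∀ z, HasDerivAt F (F' z) z := fun z => by
    refine HasDerivAt.fun_sum fun t _ => ?_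
    have := (((hasDerivAt_id z).mul_const ((t i : ℕ) : ℝ)).exp).const_mul
      (φ t * Real.exp (x * tot t))
    simpa only [hw, id, one_mul, mul_assoc] using this
  have hwsup : ∀ z a b, w z a * w z b ≤ w z (a ⊓ b) * w z (a ⊔ b) := fun z a b => by
    have e : ∀ a b, w z a * w z b = φ a * φ b * (Real.exp (x * (tot a + tot b)) *
        Real.exp (z * (((a i : ℕ) : ℝ) + (b i : ℕ)))) := fun a b => by
      simp only [hw, mul_add, Real.exp_add]
      ring
    rw [e, e, corea_tot, corea_coord]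
    exact mul_le_mul_of_nonneg_right (hsup a b) (by positivity)
  have hkey : ∀ z, Z' z * F z ≤ (q + 1) * (Z z * F' z) := fun z => by
    have h1 := corea_euler q c φ hid x z i
    have h2 : Z' z = (q + 1) * ∑ s, ∑ t,
        A s t * Real.exp (z * (((s i : ℕ) : ℝ) + (t i : ℕ))) * ((t i : ℕ) : ℝ) := by
      rw [← sub_eq_zero, ← h1]
      simp only [hZ', mul_sum, ← sum_sub_distrib]
      refine sum_congr rfl fun s _ => sum_congr rfl fun t _ => ?_
      ring
    rw [h2, mul_assoc]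
    refine mul_le_mul_of_nonneg_left ?_ (by linarith)
    simp only [hZ]
    rw [sum_mul, sum_mul]
    refine sum_le_sum fun s _ => ?_
    have e : ∀ t, A s t * Real.exp (z * (((s i : ℕ) : ℝ) + (t i : ℕ)))
        = (c s * Real.exp (x * tot s) * Real.exp (z * (s i : ℕ))) *
          (if ∀ j, (s j : ℕ) + (t j : ℕ) ≤ n then w z t else 0) := fun t => by
      simp only [hA, hw]
      split_ifs
      · simp only [mul_add, Real.exp_add]
        ring
      · simp
    simp only [e, mul_assoc _ _ ((_ : ℕ) : ℝ), ← mul_sum]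
    rw [mul_assoc, mul_assoc _ _ (F' z)]
    refine mul_le_mul_of_nonneg_left (corea_fkg (w z) (fun t => (hw0 z t).le) (hwsup z) s i) ?_
    exact mul_nonneg (mul_nonneg (hc s) (Real.exp_pos _).le) (Real.exp_pos _).le
  have hdG : ∀ z, HasDerivAt (fun z => Real.log (Z z) - (q + 1) * Real.log (F z))
      (Z' z / Z z - (q + 1) * (F' z / F z)) z := fun z =>
    ((hdZ z).log (hZ0 z).ne').sub (((hdF z).log (hF0 z).ne').const_mul _)
  have hanti : Antitone fun z => Real.log (Z z) - (q + 1) * Real.log (F z) := by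
    refine antitone_of_deriv_nonpos (fun z => (hdG z).differentiableAt) fun z => ?_
    rw [(hdG z).deriv, sub_nonpos, div_le_iff₀ (hZ0 z), ← mul_div_assoc, div_mul_eq_mul_div,
      le_div_iff₀ (hF0 z)]
    have := hkey z
    linarith
  have h1 : Real.log (Z lam) - (q + 1) * Real.log (F lam)
      ≤ Real.log (Z 0) - (q + 1) * Real.log (F 0) := hanti hlam
  have hF00 : F 0 = ∑ t, φ t * Real.exp (x * tot t) := by simp [hF, hw]
  have h2 : F lam ≤ M0 * F 0 := by rw [hF00]; exact hmgf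
  have hM0 : 0 < M0 := by
    by_contra hM
    nlinarith [hF0 lam, mul_nonneg (neg_nonneg.2 (not_lt.1 hM)) (hF0 0).le]
  have h3 : Real.log (F lam) ≤ Real.log M0 + Real.log (F 0) := by
    rw [← Real.log_mul hM0.ne' (hF0 0).ne']
    exact Real.log_le_log (hF0 lam) h2
  have h4 : Z lam ≤ Real.exp ((q + 1) * Real.log M0) * Z 0 := by
    rw [← Real.exp_log (hZ0 lam), ← Real.exp_log (hZ0 0), ← Real.exp_add]
    refine Real.exp_le_exp.2 ?_
    nlinarith [mul_le_mul_of_nonneg_left h3 (by linarith : 0 ≤ q + 1)]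
  have hZ00 : Z 0 = ∑ s, ∑ t, A s t := by simp [hZ]
  rw [Real.exp_add, mul_assoc]
  change _ ≤ _ * (_ * ∑ s, ∑ t, A s t)
  rw [← hZ00]
  refine le_trans ?_ (mul_le_mul_of_nonneg_left h4 (Real.exp_pos _).le)
  simp only [hZ, mul_sum]
  refine sum_le_sum fun s _ => sum_le_sum fun t _ => ?_
  split_ifs with hv
  · have e : A s t = c s * φ t * Real.exp (x * (tot s + tot t)) := by
      simp only [hA]
      rw [if_pos hv.1]
    rw [← e, mul_left_comm, ← Real.exp_add]
    refine le_mul_of_one_le_right (hA0 s t) (Real.one_le_exp ?_)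
    have h5 : (0 : ℝ) ≤ (t i : ℕ) := Nat.cast_nonneg _
    nlinarith [mul_le_mul_of_nonneg_left hv.2.le hlam, mul_nonneg hlam h5]
  · exact mul_nonneg (Real.exp_pos _).le (mul_nonneg (hA0 s t) (Real.exp_pos _).le)

theorem coreb_tot_nonneg {m n : ℕ} (t : Fin m → Fin (n + 1)) : 0 ≤ tot t :=
  Finset.sum_nonneg fun _ _ => Nat.cast_nonneg _

theorem coreb_tot_le {m n : ℕ} (t : Fin m → Fin (n + 1)) : tot t ≤ m * n := by
  unfold tot
  calc ∑ i, ((t i : ℕ) : ℝ) ≤ ∑ _i : Fin m, (n : ℝ) :=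
        Finset.sum_le_sum fun i _ => by exact_mod_cast Nat.lt_succ_iff.1 (t i).2
    _ = m * n := by simp

/-- The abstract splitting of the error term. -/
theorem coreb_split {ι κ : Type} [Fintype ι] [Fintype κ] (good : ι → Prop) [DecidablePred good]
    (valid : ι → κ → Prop) [∀ s t, Decidable (valid s t)] (E : ι → κ → ℂ) (A : ι → κ → ℝ)
    (B P η1 η2 : ℝ) (hB : 0 ≤ B) (hA : ∀ s t, 0 ≤ A s t) (hE : ∀ s t, ‖E s t‖ ≤ B * A s t)
    (h0 : ∑ s, ∑ t, (if valid s t then E s t else 0) = 0)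
    (hη1 : 0 ≤ η1) (hη1' : η1 ≤ 1 / 2)
    (h1 : ∑ s, ∑ t, (if valid s t ∧ ¬ good s then A s t else 0)
      ≤ η1 * ∑ s, ∑ t, (if valid s t then A s t else 0))
    (h2 : ∑ s, ∑ t, (if good s then A s t else 0) ≤ P)
    (h3 : ∑ s, ∑ t, (if good s ∧ ¬ valid s t then A s t else 0) ≤ η2 * P) :
    ‖∑ s, ∑ t, (if good s then E s t else 0)‖ ≤ B * (2 * η1 + η2) * P := by
  have hT : ∑ s, ∑ t, (if valid s t then A s t else 0)
      ≤ ∑ s, ∑ t, (if valid s t ∧ ¬ good s then A s t else 0)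
        + ∑ s, ∑ t, (if good s then A s t else 0) := by
    rw [← Finset.sum_add_distrib]
    refine Finset.sum_le_sum fun s _ => ?_
    rw [← Finset.sum_add_distrib]
    refine Finset.sum_le_sum fun t _ => ?_
    have := hA s t
    by_cases hv : valid s t <;> by_cases hg : good s <;> simp [hv, hg, this]
  have hT0 : 0 ≤ ∑ s, ∑ t, (if valid s t then A s t else 0) :=
    Finset.sum_nonneg fun s _ => Finset.sum_nonneg fun t _ => by
      split_ifs
      · exact hA s t
      · exact le_rfl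
  have hT2 : ∑ s, ∑ t, (if valid s t then A s t else 0) ≤ 2 * P := by nlinarith
  have hb : ∑ s, ∑ t, (if valid s t ∧ ¬ good s then A s t else 0) ≤ 2 * η1 * P := by nlinarith
  have e : ∑ s, ∑ t, (if good s then E s t else 0)
      = ∑ s, ∑ t, ((if good s then E s t else 0) - (if valid s t then E s t else 0)) := by
    simp only [Finset.sum_sub_distrib]
    rw [h0, sub_zero]
  rw [e]
  calc ‖∑ s, ∑ t, ((if good s then E s t else 0) - (if valid s t then E s t else 0))‖
      ≤ ∑ s, ∑ t, B * ((if valid s t ∧ ¬ good s then A s t else 0)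
          + (if good s ∧ ¬ valid s t then A s t else 0)) := by
        refine (norm_sum_le _ _).trans (Finset.sum_le_sum fun s _ => ?_)
        refine (norm_sum_le _ _).trans (Finset.sum_le_sum fun t _ => ?_)
        have := hE s t
        by_cases hv : valid s t <;> by_cases hg : good s <;> simp [hv, hg, this]
    _ = B * (∑ s, ∑ t, (if valid s t ∧ ¬ good s then A s t else 0)
          + ∑ s, ∑ t, (if good s ∧ ¬ valid s t then A s t else 0)) := by
        simp only [← Finset.mul_sum, Finset.sum_add_distrib]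
    _ ≤ B * (2 * η1 * P + η2 * P) := mul_le_mul_of_nonneg_left (add_le_add hb h3) hB
    _ = B * (2 * η1 + η2) * P := by ring

theorem core {m n : ℕ} (q : ℝ) (hq0 : 0 ≤ q)
    (hq : Complex.exp (2 * Real.pi * Complex.I * q) = -1)
    (c φ : (Fin m → Fin (n + 1)) → ℝ)
    (hc : ∀ s, 0 ≤ c s) (hc0 : 0 < c 0) (hφ : ∀ t, 0 < φ t)
    (hsup : ∀ s t, φ s * φ t ≤ φ (s ⊓ t) * φ (s ⊔ t)) (hid : EulerId q c φ)
    (N L ε β y lam M0 η1 η2 η : ℝ) (hN : 0 < N) (hL : 0 < L) (hε0 : 0 ≤ ε) (hε1 : ε < 1)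
    (hy : 0 ≤ y) (hlam : 0 ≤ lam) (hη2 : 0 ≤ η2)
    (hleft : ∑ t, φ t * Real.exp (-L * (tot t / N)) * min 2 (7 * |tot t / N - β|)
        ≤ ε * ∑ t, φ t * Real.exp (-L * (tot t / N)))
    (hright : ∑ t, φ t * Real.exp (L * (tot t / N)) * min 2 (7 * |tot t / N - β - 1|)
        ≤ ε * ∑ t, φ t * Real.exp (L * (tot t / N)))
    (htop : ∀ x ∈ Set.Icc (-L) L,
      ∑ t, φ t * Real.exp (x * (tot t / N)) *
          min (7 * |tot t / N - β|) (min 2 (7 * |tot t / N - β - 1|))
        ≤ ε * ∑ t, φ t * Real.exp (x * (tot t / N)))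
    (hinv : ∀ x ∈ Set.Icc (-L) L,
      ∑ t, (if ∃ i, (n : ℝ) - y < (t i : ℕ) then φ t * Real.exp (x * (tot t / N)) else 0)
        ≤ η2 * ∑ t, φ t * Real.exp (x * (tot t / N)))
    (hmgf : ∀ x ∈ Set.Icc (-L) L, ∀ i,
      ∑ t, φ t * Real.exp (x * (tot t / N)) * Real.exp (lam * (t i : ℕ))
        ≤ M0 * ∑ t, φ t * Real.exp (x * (tot t / N)))
    (hη1 : m * Real.exp (-(lam * y) + (q + 1) * Real.log M0) ≤ η1) (hη1' : η1 ≤ 1 / 2)
    (hη : (q + 1) * (m * n / N) * (2 * η1 + η2) ≤ η)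
    (hfin : (2 * L + 7) * η * Real.exp (2 * L * η) < Real.exp ((q + 1) * Real.log (1 - ε))) :
    False := by
  classical
  have hη10 : 0 ≤ η1 := le_trans (by positivity) hη1
  have hB : 0 ≤ (q + 1) * (m * n / N) := by positivity
  have hη0 : 0 ≤ η := le_trans (by positivity) hη
  refine monodromy q hq0 hq (fun s => if ∀ i, ((s i : ℕ) : ℝ) ≤ y then c s else 0)
    (fun s => tot s / N) φ (fun t => tot t / N) (fun s => ?_) ⟨0, ?_⟩ (fun t => (hφ t).le)
    ⟨0, hφ 0⟩ L ε β η hL hε0 hε1 hη0 (fun w hw => ?_) hleft hright htop hfin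
  · split_ifs
    · exact hc s
    · exact le_rfl
  · rw [if_pos fun i => by simpa using hy]
    exact hc0
  set x := w.re with hx
  set G : ℝ := ∑ s : Fin m → Fin (n + 1),
    (if ∀ i, ((s i : ℕ) : ℝ) ≤ y then c s else 0) * Real.exp (x * (tot s / N)) with hG
  set F : ℝ := ∑ t : Fin m → Fin (n + 1), φ t * Real.exp (x * (tot t / N)) with hF
  have hG0 : 0 ≤ G := Finset.sum_nonneg fun s _ => by
    split_ifs
    · exact mul_nonneg (hc s) (Real.exp_pos _).le
    · simp
  have hF0 : 0 ≤ F := Finset.sum_nonneg fun t _ => mul_nonneg (hφ t).le (Real.exp_pos _).le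
  have hexp : ∀ s t : Fin m → Fin (n + 1), Real.exp (x / N * (tot s + tot t))
      = Real.exp (x * (tot s / N)) * Real.exp (x * (tot t / N)) := fun s t => by
    rw [← Real.exp_add]
    congr 1
    ring
  have key := coreb_split (fun s : Fin m → Fin (n + 1) => ∀ i, ((s i : ℕ) : ℝ) ≤ y)
    (fun s t : Fin m → Fin (n + 1) => ∀ j, (s j : ℕ) + (t j : ℕ) ≤ n)
    (fun s t => ((c s * φ t * (tot s / N - q * (tot t / N)) : ℝ) : ℂ) *
      Complex.exp (w * ((tot s / N + tot t / N : ℝ) : ℂ)))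
    (fun s t => c s * φ t * Real.exp (x / N * (tot s + tot t)))
    ((q + 1) * (m * n / N)) (G * F) η1 η2 hB
    (fun s t => mul_nonneg (mul_nonneg (hc s) (hφ t).le) (Real.exp_pos _).le)
    (fun s t => ?_) ?_ hη10 hη1' ?_ ?_ ?_
  · refine le_trans (le_of_eq ?_) (key.trans (mul_le_mul_of_nonneg_right hη (mul_nonneg hG0 hF0)))
    congr 1
    refine Finset.sum_congr rfl fun s _ => Finset.sum_congr rfl fun t _ => ?_
    split_ifs <;> simp
  · rw [norm_mul, Complex.norm_real, Complex.norm_exp, Complex.re_mul_ofReal, Real.norm_eq_abs,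
      abs_mul, abs_of_nonneg (mul_nonneg (hc s) (hφ t).le), ← hx]
    have h1 : 0 ≤ tot s / N := div_nonneg (coreb_tot_nonneg s) hN.le
    have h2 : tot s / N ≤ m * n / N := div_le_div_of_nonneg_right (coreb_tot_le s) hN.le
    have h3 : 0 ≤ tot t / N := div_nonneg (coreb_tot_nonneg t) hN.le
    have h4 : tot t / N ≤ m * n / N := div_le_div_of_nonneg_right (coreb_tot_le t) hN.le
    have h5 : |tot s / N - q * (tot t / N)| ≤ (q + 1) * (m * n / N) := by
      rw [abs_le]
      constructor <;> nlinarith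
    have h6 : x * (tot s / N + tot t / N) = x / N * (tot s + tot t) := by ring
    rw [h6]
    calc c s * φ t * |tot s / N - q * (tot t / N)| * Real.exp (x / N * (tot s + tot t))
        ≤ c s * φ t * ((q + 1) * (m * n / N)) * Real.exp (x / N * (tot s + tot t)) :=
          mul_le_mul_of_nonneg_right (mul_le_mul_of_nonneg_left h5 (mul_nonneg (hc s) (hφ t).le))
            (Real.exp_pos _).le
      _ = _ := by ring
  · refine Eq.trans ?_ (hid (fun u => Complex.exp (w * (((∑ i, (u i : ℝ)) / N : ℝ) : ℂ)))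
      fun _ => N⁻¹)
    refine Finset.sum_congr rfl fun s _ => Finset.sum_congr rfl fun t _ => ?_
    have e1 : tot s / N - q * (tot t / N)
        = ∑ i, N⁻¹ * ((s i : ℕ) : ℝ) - q * ∑ i, N⁻¹ * ((t i : ℕ) : ℝ) := by
      simp only [← Finset.mul_sum, tot]
      ring
    have e2 : tot s / N + tot t / N = (∑ i, (((s i : ℕ) + (t i : ℕ) : ℕ) : ℝ)) / N := by
      simp only [tot, Nat.cast_add, Finset.sum_add_distrib]
      ring
    rw [e1, e2]
  · have hT0 : 0 ≤ ∑ s : Fin m → Fin (n + 1), ∑ t : Fin m → Fin (n + 1),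
        (if ∀ j, (s j : ℕ) + (t j : ℕ) ≤ n then
          c s * φ t * Real.exp (x / N * (tot s + tot t)) else 0) :=
      Finset.sum_nonneg fun s _ => Finset.sum_nonneg fun t _ => by
        split_ifs
        · exact mul_nonneg (mul_nonneg (hc s) (hφ t).le) (Real.exp_pos _).le
        · exact le_rfl
    have hch := fun i => chernoff q hq0 c φ hc hc0 hφ hsup hid (x / N) lam y M0 hlam i (by
      have := hmgf x hw i
      simpa only [div_mul_eq_mul_div, mul_div_assoc] using this)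
    refine le_trans ?_ (mul_le_mul_of_nonneg_right hη1 hT0)
    calc _ ≤ ∑ s : Fin m → Fin (n + 1), ∑ t : Fin m → Fin (n + 1), ∑ i : Fin m,
          (if (∀ j, (s j : ℕ) + (t j : ℕ) ≤ n) ∧ y < (s i : ℕ) then
            c s * φ t * Real.exp (x / N * (tot s + tot t)) else 0) := by
          refine Finset.sum_le_sum fun s _ => Finset.sum_le_sum fun t _ => ?_
          have hnn : ∀ i : Fin m, 0 ≤ (if (∀ j, (s j : ℕ) + (t j : ℕ) ≤ n) ∧ y < (s i : ℕ) then
              c s * φ t * Real.exp (x / N * (tot s + tot t)) else 0) := fun i => by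
            split_ifs
            · exact mul_nonneg (mul_nonneg (hc s) (hφ t).le) (Real.exp_pos _).le
            · exact le_rfl
          split_ifs with h
          · obtain ⟨hv, hb⟩ := h
            push Not at hb
            obtain ⟨i, hi⟩ := hb
            refine le_trans (le_of_eq ?_)
              (Finset.single_le_sum (fun j _ => hnn j) (Finset.mem_univ i))
            rw [if_pos ⟨hv, hi⟩]
          · exact Finset.sum_nonneg fun i _ => hnn i
      _ = ∑ i : Fin m, ∑ s : Fin m → Fin (n + 1), ∑ t : Fin m → Fin (n + 1),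
          (if (∀ j, (s j : ℕ) + (t j : ℕ) ≤ n) ∧ y < (s i : ℕ) then
            c s * φ t * Real.exp (x / N * (tot s + tot t)) else 0) := by
          rw [Finset.sum_comm (s := (Finset.univ : Finset (Fin m)))]
          exact Finset.sum_congr rfl fun s _ => Finset.sum_comm
      _ ≤ ∑ _i : Fin m, Real.exp (-(lam * y) + (q + 1) * Real.log M0) *
          ∑ s : Fin m → Fin (n + 1), ∑ t : Fin m → Fin (n + 1),
          (if ∀ j, (s j : ℕ) + (t j : ℕ) ≤ n then
            c s * φ t * Real.exp (x / N * (tot s + tot t)) else 0) :=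
          Finset.sum_le_sum fun i _ => hch i
      _ = _ := by
          rw [Finset.sum_const, Finset.card_univ, Fintype.card_fin, nsmul_eq_mul, mul_assoc]
  · rw [hG, hF, Finset.sum_mul_sum]
    refine Finset.sum_le_sum fun s _ => Finset.sum_le_sum fun t _ => le_of_eq ?_
    rw [hexp]
    split_ifs
    · ring
    · simp
  · calc _ ≤ ∑ s : Fin m → Fin (n + 1), ∑ t : Fin m → Fin (n + 1),
          ((if ∀ i, ((s i : ℕ) : ℝ) ≤ y then c s else 0) * Real.exp (x * (tot s / N))) *
          (if ∃ i, (n : ℝ) - y < (t i : ℕ) then φ t * Real.exp (x * (tot t / N)) else 0) := by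
          refine Finset.sum_le_sum fun s _ => Finset.sum_le_sum fun t _ => ?_
          by_cases h : (∀ i, ((s i : ℕ) : ℝ) ≤ y) ∧ ¬ ∀ j, (s j : ℕ) + (t j : ℕ) ≤ n
          · obtain ⟨hg, hv⟩ := h
            have hex : ∃ i, (n : ℝ) - y < (t i : ℕ) := by
              push Not at hv
              obtain ⟨j, hj⟩ := hv
              have : (n : ℝ) < (s j : ℕ) + (t j : ℕ) := by exact_mod_cast hj
              exact ⟨j, by linarith [hg j]⟩
            rw [if_pos ⟨hg, hv⟩, if_pos hg, if_pos hex, hexp]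
            exact le_of_eq (by ring)
          · rw [if_neg h]
            refine mul_nonneg (mul_nonneg ?_ (Real.exp_pos _).le) ?_
            · split_ifs
              · exact hc s
              · exact le_rfl
            · split_ifs
              · exact mul_nonneg (hφ t).le (Real.exp_pos _).le
              · exact le_rfl
      _ = G * ∑ t : Fin m → Fin (n + 1),
          (if ∃ i, (n : ℝ) - y < (t i : ℕ) then φ t * Real.exp (x * (tot t / N)) else 0) := by
          rw [hG, Finset.sum_mul_sum]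
      _ ≤ G * (η2 * F) := mul_le_mul_of_nonneg_left (hinv x hw) hG0
      _ = η2 * (G * F) := by ring

end Pool.Agent.P.MP_abed8b_co
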