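import Pool.Agent.P.MP_abed8b_co.Peak
import Pool.Agent.P.MP_abed8b_co.Max

set_option autoImplicit false

namespace Pool.Agent.P.MP_abed8b_co

open Finset Filter

theorem lev_mul_log_div {t n : ℝ} (ht : 0 ≤ t) (hn : 0 < n) :
    t * Real.log (t / n) = t * Real.log t - t * Real.log n := by
  rcases ht.eq_or_lt with h | h
  · rw [← h]; simp
  · rw [Real.log_div h.ne' hn.ne']; ring

/-- Two peaks for one cluster. -/
theorem peaks_one (d : ℕ) (hd : 10 ≤ d) :
    ∃ b τ : ℝ, 0 < b ∧ b ≤ 1 / (10 * d) ∧ 0 < τ ∧ ∀ δ > (0 : ℝ), ∀ᶠ n : ℕ in atTop, ∃ r : ℝ,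
      TwoPeak (5 / d) b δ n fun t =>
        Real.exp (τ * n * (1 - (t : ℝ) / n) ^ d + r * t) / (t.factorial : ℝ) := by
  obtain ⟨b, τ, h, hb, hb', hτ, heq, hmax⟩ := level_one d hd
  refine ⟨b, τ, hb, hb', hτ, fun δ hδ => ?_⟩
  have hd' : (10 : ℝ) ≤ d := by exact_mod_cast hd
  have hd0 : (0 : ℝ) < d := by linarith
  have hab : b < 5 / d := by
    refine lt_of_le_of_lt hb' ?_
    rw [div_lt_div_iff₀ (by positivity) hd0]
    linarith
  have ha : (5 : ℝ) / d ≤ 1 := by
    rw [div_le_one hd0]; linarith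
  have key := two_peak (g1 d τ h) (g1_cont d τ h).continuousOn (5 / d) b hb.le hab ha heq hmax
    (fun n t => τ * n * (1 - (t : ℝ) / n) ^ d + t * Real.log n - Real.log (t.factorial : ℝ) + h * t)
    (fun ε hε => by
      filter_upwards [log_fact ε hε, eventually_gt_atTop 0] with n hn hn0 t ht
      have hn' : (0 : ℝ) < n := by exact_mod_cast hn0
      have h1 := lev_mul_log_div (t := (t : ℝ)) (Nat.cast_nonneg t) hn'
      have h2 : τ * n * (1 - (t : ℝ) / n) ^ d + t * Real.log n - Real.log (t.factorial : ℝ) + h * t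
          - n * g1 d τ h ((t : ℝ) / n)
          = -(Real.log (t.factorial : ℝ) - ((t : ℝ) * Real.log t - t)) := by
        have h3 : (n : ℝ) * g1 d τ h ((t : ℝ) / n)
            = -((t : ℝ) * Real.log ((t : ℝ) / n)) + t + τ * n * (1 - (t : ℝ) / n) ^ d + h * t := by
          unfold g1
          field_simp
        rw [h3, h1]; ring
      rw [h2, abs_neg]
      exact hn t ht) δ hδ
  filter_upwards [key] with n hn
  obtain ⟨h', hh'⟩ := hn
  refine ⟨Real.log n + h + h', ?_⟩
  convert hh' using 2 with t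
  have hf : (0 : ℝ) < (t.factorial : ℝ) := by exact_mod_cast t.factorial_pos
  rw [div_eq_iff hf.ne']
  conv_rhs => rw [← Real.exp_log hf, ← Real.exp_add]
  rw [Real.log_exp]
  congr 1
  ring

/-- Weight of a set `I` of clusters. -/
noncomputable def om (m : ℕ) (B T h x : ℝ) (I : Finset (Fin m)) : ℝ :=
  Real.exp (T * m * Real.exp (-(24 / 5 * ((I.card : ℝ) / m))) + h * I.card +
    x * (((I.card : ℝ) / m) / (17 / 100 - B)))

/-- Position of `I` between the two peaks. -/
noncomputable def zz (m : ℕ) (B : ℝ) (I : Finset (Fin m)) : ℝ :=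
  ((I.card : ℝ) / m - B) / (17 / 100 - B)

theorem lev_exp_one : Real.exp 1 ≤ 3 := by
  have := Real.exp_one_lt_d9
  linarith

theorem lev_abs_mul {x z L η : ℝ} (hx : |x| ≤ L) (hz : |z| ≤ η) : |x * z| ≤ L * η := by
  rw [abs_mul]
  exact mul_le_mul hx hz (abs_nonneg _) ((abs_nonneg _).trans hx)

/-- The tilted total mass is comparable to the total mass. -/
theorem lev_lower {ι : Type*} [Fintype ι] (W z : ι → ℝ) (U Bd : ι → Prop) [DecidablePred U]
    [DecidablePred Bd] (hW : ∀ i, 0 ≤ W i) {δ η L x : ℝ}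
    (hU : ∑ i, (if U i then W i else 0) = (∑ i, W i) / 2)
    (hB : ∑ i, (if Bd i then W i else 0) ≤ δ * ∑ i, W i) (hδ : δ ≤ 1 / 4)
    (hz : ∀ i, ¬ Bd i → ¬ U i → |z i| ≤ η) (hx : |x| ≤ L) (hLη : L * η ≤ 1) :
    ∑ i, W i ≤ 12 * ∑ i, W i * Real.exp (x * z i) := by
  have hS : 0 ≤ ∑ i, W i := Finset.sum_nonneg fun i _ => hW i
  have h1 : ∀ i, W i - (if U i then W i else 0) - (if Bd i then W i else 0)
      ≤ 3 * (W i * Real.exp (x * z i)) := by
    intro i
    have h0 : 0 ≤ W i * Real.exp (x * z i) := mul_nonneg (hW i) (Real.exp_pos _).le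
    have hWi := hW i
    by_cases hu : U i
    · by_cases hb : Bd i
      · rw [if_pos hu, if_pos hb]; linarith
      · rw [if_pos hu, if_neg hb]; linarith
    · by_cases hb : Bd i
      · rw [if_neg hu, if_pos hb]; linarith
      · rw [if_neg hu, if_neg hb]
        have h2 := (abs_le.1 ((lev_abs_mul hx (hz i hb hu)).trans hLη)).1
        have h3 : 1 ≤ Real.exp 1 * Real.exp (x * z i) := by
          rw [← Real.exp_add]
          exact Real.one_le_exp (by linarith)
        have h4 : Real.exp 1 * Real.exp (x * z i) ≤ 3 * Real.exp (x * z i) :=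
          mul_le_mul_of_nonneg_right lev_exp_one (Real.exp_pos _).le
        have h5 := mul_le_mul_of_nonneg_left (h3.trans h4) hWi
        linarith
  have h2 := Finset.sum_le_sum fun i (_ : i ∈ (univ : Finset ι)) => h1 i
  rw [Finset.sum_sub_distrib, Finset.sum_sub_distrib, ← Finset.mul_sum, hU] at h2
  have h3 := mul_le_mul_of_nonneg_right hδ hS
  linarith

/-- Upper bound of a tilted mean: `c` off the bad set except for a part of small tilt. -/
theorem lev_upper {ι : Type*} [Fintype ι] (W z φ : ι → ℝ) (Bd : ι → Prop)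
    [DecidablePred Bd] (hW : ∀ i, 0 ≤ W i) {δ L Z x c C e : ℝ}
    (hB : ∑ i, (if Bd i then W i else 0) ≤ δ * ∑ i, W i) (hδ : 0 ≤ δ)
    (hx : |x| ≤ L) (hZ : ∀ i, |z i| ≤ Z) (hc : 0 ≤ c) (hC : 0 ≤ C) (he : 0 ≤ e)
    (hφ : ∀ i, φ i ≤ C)
    (hgood : ∀ i, ¬ Bd i → φ i ≤ c ∨ Real.exp (x * z i) * φ i ≤ e)
    (hlow : ∑ i, W i ≤ 12 * ∑ i, W i * Real.exp (x * z i)) :
    ∑ i, W i * Real.exp (x * z i) * φ i
      ≤ (c + 12 * (C * Real.exp (L * Z) * δ + e)) * ∑ i, W i * Real.exp (x * z i) := by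
  have hK : 0 ≤ C * Real.exp (L * Z) := mul_nonneg hC (Real.exp_pos _).le
  have h1 : ∀ i, W i * Real.exp (x * z i) * φ i ≤ c * (W i * Real.exp (x * z i))
      + C * Real.exp (L * Z) * (if Bd i then W i else 0) + e * W i := by
    intro i
    have hWi := hW i
    have h0 : 0 ≤ W i * Real.exp (x * z i) := mul_nonneg hWi (Real.exp_pos _).le
    have hc0 := mul_nonneg hc h0
    have he0 := mul_nonneg he hWi
    by_cases hb : Bd i
    · rw [if_pos hb]
      have h2 : Real.exp (x * z i) ≤ Real.exp (L * Z) :=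
        Real.exp_le_exp.2 (abs_le.1 (lev_abs_mul hx (hZ i))).2
      have h3 := mul_le_mul_of_nonneg_left (hφ i) h0
      have h4 := mul_le_mul_of_nonneg_left h2 (mul_nonneg hWi hC)
      linarith
    · rw [if_neg hb]
      rcases hgood i hb with h | h
      · have h3 := mul_le_mul_of_nonneg_left h h0
        linarith
      · have h3 := mul_le_mul_of_nonneg_left h hWi
        linarith
  have h2 := Finset.sum_le_sum fun i (_ : i ∈ (univ : Finset ι)) => h1 i
  rw [Finset.sum_add_distrib, Finset.sum_add_distrib, ← Finset.mul_sum, ← Finset.mul_sum,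
    ← Finset.mul_sum] at h2
  have h3 := mul_le_mul_of_nonneg_left hB hK
  have h4 := mul_le_mul_of_nonneg_left hlow (add_nonneg (mul_nonneg hK hδ) he)
  linarith

/-- At the end of the interval of tilts one peak dominates. -/
theorem lev_end {ι : Type*} [Fintype ι] (W z : ι → ℝ) (U Bd : ι → Prop) [DecidablePred U]
    [DecidablePred Bd] (hW : ∀ i, 0 ≤ W i) {δ η L Z : ℝ}
    (hU : ∑ i, (if U i then W i else 0) = (∑ i, W i) / 2)
    (hB : ∑ i, (if Bd i then W i else 0) ≤ δ * ∑ i, W i) (hδ0 : 0 ≤ δ) (hδ : δ ≤ 1 / 4)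
    (hz : ∀ i, ¬ Bd i → ¬ U i → |z i| ≤ η) (hz' : ∀ i, ¬ Bd i → U i → |z i - 1| ≤ η)
    (hZ : ∀ i, |z i| ≤ Z) (hL : 0 < L) (hη : 0 ≤ η) (hLη : L * η ≤ 1) :
    ∑ i, W i * Real.exp (-L * z i) * min 2 (7 * |z i|)
      ≤ (7 * η + 12 * (2 * Real.exp (L * Z) * δ + 6 / L)) * ∑ i, W i * Real.exp (-L * z i) := by
  have hx : |-L| ≤ L := by rw [abs_neg, abs_of_pos hL]
  refine lev_upper W z (fun i => min 2 (7 * |z i|)) Bd hW hB hδ0 hx hZ (by positivity)
    (by norm_num) (by positivity) (fun i => min_le_left _ _) (fun i hb => ?_)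
    (lev_lower W z U Bd hW hU hB hδ hz hx hLη)
  by_cases hu : U i
  · right
    have h1 := (abs_le.1 (hz' i hb hu)).1
    have h2 : -L * z i ≤ 1 + -L := by
      have := mul_le_mul_of_nonneg_left h1 hL.le
      linarith
    have h3 : Real.exp (-L * z i) ≤ Real.exp 1 * Real.exp (-L) := by
      rw [← Real.exp_add]; exact Real.exp_le_exp.2 h2
    have h4 : Real.exp (-L) ≤ 1 / L := by
      rw [Real.exp_neg, ← one_div]
      apply one_div_le_one_div_of_le hL
      have := Real.add_one_le_exp L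
      linarith
    have h5 : Real.exp 1 * Real.exp (-L) ≤ 3 * (1 / L) :=
      mul_le_mul lev_exp_one h4 (Real.exp_pos _).le (by norm_num)
    have h6 : Real.exp (-L * z i) * min 2 (7 * |z i|) ≤ Real.exp (-L * z i) * 2 :=
      mul_le_mul_of_nonneg_left (min_le_left _ _) (Real.exp_pos _).le
    have h7 : 6 / L = 6 * (1 / L) := by ring
    linarith
  · left
    have := hz i hb hu
    exact (min_le_right _ _).trans (by linarith)

theorem lev_sum_card (m : ℕ) (F : ℕ → ℝ) :
    ∑ I : Finset (Fin m), F I.card = ∑ k ∈ range (m + 1), (m.choose k : ℝ) * F k := by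
  have h := Finset.sum_powerset_apply_card F (x := (univ : Finset (Fin m)))
  rw [Finset.powerset_univ, Finset.card_univ, Fintype.card_fin] at h
  rw [h]
  exact Finset.sum_congr rfl fun k _ => nsmul_eq_mul _ _

theorem lev_marg (m : ℕ) (F : ℕ → ℝ) (i : Fin m) :
    (m : ℝ) * ∑ I : Finset (Fin m), (if i ∈ I then F I.card else 0)
      = ∑ I : Finset (Fin m), F I.card * I.card := by
  have h1 : ∀ j : Fin m, ∑ I : Finset (Fin m), (if i ∈ I then F I.card else 0)
      = ∑ I : Finset (Fin m), (if j ∈ I then F I.card else 0) := by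
    intro j
    refine Fintype.sum_equiv (Equiv.swap i j).finsetCongr _ _ fun I => ?_
    have h2 : j ∈ (Equiv.swap i j).finsetCongr I ↔ i ∈ I := by
      rw [Equiv.finsetCongr_apply, Finset.mem_map_equiv, Equiv.symm_swap, Equiv.swap_apply_right]
    have h3 : ((Equiv.swap i j).finsetCongr I).card = I.card := by
      rw [Equiv.finsetCongr_apply, Finset.card_map]
    rw [h3]
    simp only [h2]
  have h4 : (m : ℝ) * ∑ I : Finset (Fin m), (if i ∈ I then F I.card else 0)
      = ∑ j : Fin m, ∑ I : Finset (Fin m), (if j ∈ I then F I.card else 0) := by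
    rw [← Finset.sum_congr rfl fun j _ => h1 j, Finset.sum_const, Finset.card_univ,
      Fintype.card_fin, nsmul_eq_mul]
  rw [h4, Finset.sum_comm]
  refine Finset.sum_congr rfl fun I _ => ?_
  rw [← Finset.sum_filter, Finset.sum_const, nsmul_eq_mul, mul_comm]
  congr 2
  simp

theorem lev_log_choose (ε : ℝ) (hε : 0 < ε) :
    ∀ᶠ m : ℕ in atTop, ∀ k ≤ m, |Real.log (m.choose k : ℝ) + (k : ℝ) * Real.log ((k : ℝ) / m)
      + ((m : ℝ) - k) * Real.log (1 - (k : ℝ) / m)| ≤ ε * m := by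
  filter_upwards [log_fact (ε / 3) (by positivity), eventually_gt_atTop 0] with m hm hm0 k hk
  have hm' : (0 : ℝ) < m := by exact_mod_cast hm0
  have hk' : (k : ℝ) ≤ m := by exact_mod_cast hk
  have h1 := abs_le.1 (hm m le_rfl)
  have h2 := abs_le.1 (hm k hk)
  have h3 := abs_le.1 (hm (m - k) (Nat.sub_le _ _))
  rw [Nat.cast_sub hk] at h3
  have h4 := lev_mul_log_div (t := (k : ℝ)) (Nat.cast_nonneg k) hm'
  have h5 := lev_mul_log_div (t := (m : ℝ) - k) (by linarith) hm'
  have h6 : ((m : ℝ) - k) / m = 1 - (k : ℝ) / m := by field_simp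
  rw [h6] at h5
  have hf : ∀ j : ℕ, (j.factorial : ℝ) ≠ 0 := fun j => by exact_mod_cast j.factorial_ne_zero
  have h7 : Real.log (m.choose k : ℝ) = Real.log (m.factorial : ℝ) - Real.log (k.factorial : ℝ)
      - Real.log ((m - k).factorial : ℝ) := by
    rw [Nat.cast_choose ℝ hk, Real.log_div (hf _) (mul_ne_zero (hf _) (hf _)),
      Real.log_mul (hf _) (hf _)]
    ring
  rw [h4, h5, h7, abs_le]
  constructor <;> linarith [h1.1, h1.2, h2.1, h2.2, h3.1, h3.2]

/-- Two peaks for the system of clusters. -/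
theorem peaks_two :
    ∃ B T : ℝ, 0 < B ∧ B < 17 / 100 ∧ 0 < T ∧ ∀ ε > (0 : ℝ), ∃ L > (0 : ℝ), ∃ m : ℕ, 0 < m ∧
      ∃ h : ℝ,
        (∑ I, om m B T h (-L) I * min 2 (7 * |zz m B I|) ≤ ε * ∑ I, om m B T h (-L) I) ∧
        (∑ I, om m B T h L I * min 2 (7 * |zz m B I - 1|) ≤ ε * ∑ I, om m B T h L I) ∧
        (∀ x ∈ Set.Icc (-L) L,
          ∑ I, om m B T h x I * min (7 * |zz m B I|) (min 2 (7 * |zz m B I - 1|))
            ≤ ε * ∑ I, om m B T h x I) ∧
        (∀ x ∈ Set.Icc (-L) L, ∀ i : Fin m,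
          ∑ I, (if i ∈ I then om m B T h x I else 0) ≤ 172 / 1000 * ∑ I, om m B T h x I) := by
  obtain ⟨B, T, h0, hB0, hBA, hT, heq, hmax⟩ := level_two
  refine ⟨B, T, hB0, hBA, hT, fun ε hε => ?_⟩
  obtain ⟨D, hD⟩ : ∃ D : ℝ, D = 17 / 100 - B := ⟨_, rfl⟩
  have hD0 : 0 < D := by linarith
  obtain ⟨L, hL⟩ : ∃ L : ℝ, L = 216 / ε := ⟨_, rfl⟩
  have hL0 : 0 < L := by rw [hL]; positivity
  have hLε : 12 * (6 / L) = ε / 3 := by rw [hL]; field_simp; norm_num
  obtain ⟨E, hE⟩ : ∃ E : ℝ, E = Real.exp (L * (1 / D)) := ⟨_, rfl⟩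
  have hE0 : 0 < E := by rw [hE]; exact Real.exp_pos _
  obtain ⟨δ, hδ0, hδ1, hδ2⟩ : ∃ δ : ℝ, 0 < δ ∧
      δ * (L / D + 7 / D + 24 * E + 4) ≤ 2 * ε / 3 ∧
      δ * (L / D + 7 / D + 24 * E + 4) ≤ 1 / 500 := by
    have hM : 0 < L / D + 7 / D + 24 * E + 4 := by positivity
    refine ⟨min (2 * ε / 3) (1 / 500) / (L / D + 7 / D + 24 * E + 4), by positivity, ?_, ?_⟩
    · rw [div_mul_cancel₀ _ hM.ne']; exact min_le_left _ _
    · rw [div_mul_cancel₀ _ hM.ne']; exact min_le_right _ _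
  obtain ⟨η, hη⟩ : ∃ η : ℝ, η = δ / D := ⟨_, rfl⟩
  have hη0 : 0 ≤ η := by rw [hη]; positivity
  have hexp : δ * (L / D + 7 / D + 24 * E + 4) = L * η + 7 * η + 24 * (E * δ) + 4 * δ := by
    rw [hη]; ring
  rw [hexp] at hδ1 hδ2
  have hLη0 : 0 ≤ L * η := by positivity
  have hEδ : 0 ≤ E * δ := by positivity
  have key := two_peak (g2 T h0) (g2_cont T h0).continuousOn (17 / 100) B hB0.le hBA
    (by norm_num) heq hmax
    (fun m k => Real.log (m.choose k : ℝ) + T * m * Real.exp (-(24 / 5 * ((k : ℝ) / m))) + h0 * k)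
    (fun ε hε => by
      filter_upwards [lev_log_choose ε hε, eventually_gt_atTop 0] with m hm hm0 k hk
      have hm' : (0 : ℝ) < m := by exact_mod_cast hm0
      have h3 : (m : ℝ) * g2 T h0 ((k : ℝ) / m)
          = -((k : ℝ) * Real.log ((k : ℝ) / m)) - ((m : ℝ) - k) * Real.log (1 - (k : ℝ) / m)
            + T * m * Real.exp (-(24 / 5 * ((k : ℝ) / m))) + h0 * k := by
        unfold g2
        generalize Real.log ((k : ℝ) / m) = u
        generalize Real.log (1 - (k : ℝ) / m) = v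
        generalize Real.exp (-(24 / 5 * ((k : ℝ) / m))) = y
        field_simp
      have h4 := hm k hk
      rw [h3]
      convert h4 using 2
      ring) δ hδ0
  obtain ⟨m, ⟨h, hU, hBd⟩, hm0⟩ := (key.and (eventually_gt_atTop 0)).exists
  have hm' : (0 : ℝ) < m := by exact_mod_cast hm0
  obtain ⟨V, hV⟩ : ∃ V : ℕ → ℝ, V = fun k : ℕ =>
      Real.exp (T * m * Real.exp (-(24 / 5 * ((k : ℝ) / m))) + (h0 + h) * k) := ⟨_, rfl⟩
  have hV0 : ∀ I : Finset (Fin m), 0 ≤ V I.card := fun I => by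
    rw [hV]; exact (Real.exp_pos _).le
  have hWV : ∀ k ∈ range (m + 1), Real.exp (Real.log (m.choose k : ℝ)
      + T * m * Real.exp (-(24 / 5 * ((k : ℝ) / m))) + h0 * k + h * k)
      = (m.choose k : ℝ) * V k := by
    intro k hk
    have hc : (0 : ℝ) < (m.choose k : ℝ) := by
      exact_mod_cast Nat.choose_pos (Nat.lt_succ_iff.1 (Finset.mem_range.1 hk))
    rw [hV]
    conv_rhs => rw [← Real.exp_log hc, ← Real.exp_add]
    congr 1
    ring
  have hite : ∀ (P : ℕ → Prop) [DecidablePred P],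
      ∑ k ∈ range (m + 1), (if P k then Real.exp (Real.log (m.choose k : ℝ)
        + T * m * Real.exp (-(24 / 5 * ((k : ℝ) / m))) + h0 * k + h * k) else 0)
      = ∑ I : Finset (Fin m), (if P I.card then V I.card else 0) := by
    intro P _
    rw [lev_sum_card m fun k => if P k then V k else 0]
    refine Finset.sum_congr rfl fun k hk => ?_
    rw [hWV k hk, mul_ite, mul_zero]
  simp only at hU hBd
  rw [Finset.sum_congr rfl hWV, ← lev_sum_card m V] at hU hBd
  rw [hite fun k => (17 / 100 + B) / 2 * (m : ℝ) < k] at hU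
  rw [hite fun k => δ < |(k : ℝ) / m - pk (17 / 100) B m k|] at hBd
  have hU' : ∑ I : Finset (Fin m), (if ¬ (17 / 100 + B) / 2 * (m : ℝ) < I.card then V I.card else 0)
      = (∑ I : Finset (Fin m), V I.card) / 2 := by
    have h1 : ∀ I : Finset (Fin m),
        (if ¬ (17 / 100 + B) / 2 * (m : ℝ) < I.card then V I.card else 0)
        = V I.card - (if (17 / 100 + B) / 2 * (m : ℝ) < I.card then V I.card else 0) := by
      intro I
      by_cases hu : (17 / 100 + B) / 2 * (m : ℝ) < I.card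
      · rw [if_pos hu, if_neg (not_not.2 hu), sub_self]
      · rw [if_neg hu, if_pos hu, sub_zero]
    rw [Finset.sum_congr rfl fun I _ => h1 I, Finset.sum_sub_distrib, hU]
    ring
  have hzz : ∀ I, zz m B I = ((I.card : ℝ) / m - B) / D := fun I => by rw [hD]; rfl
  have hzz' : ∀ I, zz m B I - 1 = ((I.card : ℝ) / m - 17 / 100) / D := fun I => by
    rw [hzz, div_sub_one hD0.ne', hD]; congr 1; ring
  have hy : ∀ I : Finset (Fin m), 0 ≤ (I.card : ℝ) / m ∧ (I.card : ℝ) / m ≤ 1 := fun I => by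
    refine ⟨by positivity, ?_⟩
    rw [div_le_one hm']
    have := Finset.card_le_univ I
    rw [Fintype.card_fin] at this
    exact_mod_cast this
  have hdiv : ∀ u v : ℝ, |u| ≤ v → |u / D| ≤ v / D := fun u v huv => by
    rw [abs_div, abs_of_pos hD0]
    exact div_le_div_of_nonneg_right huv hD0.le
  have hz : ∀ I : Finset (Fin m), ¬ δ < |(I.card : ℝ) / m - pk (17 / 100) B m I.card| →
      ¬ (17 / 100 + B) / 2 * (m : ℝ) < I.card → |zz m B I| ≤ η := fun I hb hu => by
    rw [pk, if_neg hu, not_lt] at hb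
    rw [hzz, hη]
    exact hdiv _ _ hb
  have hz' : ∀ I : Finset (Fin m), ¬ δ < |(I.card : ℝ) / m - pk (17 / 100) B m I.card| →
      (17 / 100 + B) / 2 * (m : ℝ) < I.card → |zz m B I - 1| ≤ η := fun I hb hu => by
    rw [pk, if_pos hu, not_lt] at hb
    rw [hzz', hη]
    exact hdiv _ _ hb
  have hZ : ∀ I : Finset (Fin m), |zz m B I| ≤ 1 / D := fun I => by
    rw [hzz]
    refine hdiv _ _ (abs_le.2 ⟨?_, ?_⟩) <;> linarith [(hy I).1, (hy I).2]
  have hZ' : ∀ I : Finset (Fin m), |zz m B I - 1| ≤ 1 / D := fun I => by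
    rw [hzz']
    refine hdiv _ _ (abs_le.2 ⟨?_, ?_⟩) <;> linarith [(hy I).1, (hy I).2]
  have hom : ∀ x I, om m B T (h0 + h) x I
      = Real.exp (x * (B / D)) * (V I.card * Real.exp (x * zz m B I)) := fun x I => by
    rw [om, hV, hzz, ← hD, ← Real.exp_add, ← Real.exp_add]
    congr 1
    ring
  have hom' : ∀ I, om m B T (h0 + h) L I
      = Real.exp (L * (17 / 100 / D)) * (V I.card * Real.exp (-L * (1 - zz m B I))) := fun I => by
    rw [← neg_sub (zz m B I) 1, om, hV, hzz', ← hD, ← Real.exp_add, ← Real.exp_add]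
    congr 1
    ring
  have hfin : ∀ (K c c' : ℝ) (f g φ : Finset (Fin m) → ℝ), 0 < K → (∀ I, f I = K * g I) →
      (∀ I, 0 ≤ g I) → c ≤ c' → ∑ I, g I * φ I ≤ c * ∑ I, g I →
      ∑ I, f I * φ I ≤ c' * ∑ I, f I := by
    intro K c c' f g φ hK hfg hg hcc hle
    have h1 : ∑ I, f I * φ I = K * ∑ I, g I * φ I := by
      rw [Finset.mul_sum]
      exact Finset.sum_congr rfl fun I _ => by rw [hfg, mul_assoc]
    have h2 : ∑ I, f I = K * ∑ I, g I := by
      rw [Finset.mul_sum]
      exact Finset.sum_congr rfl fun I _ => hfg I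
    have h3 := mul_le_mul_of_nonneg_right hcc (Finset.sum_nonneg fun I (_ : I ∈ univ) => hg I)
    have h4 := mul_le_mul_of_nonneg_left (hle.trans h3) hK.le
    rw [h1, h2]
    linarith
  have hg0 : ∀ (y : Finset (Fin m) → ℝ) (I : Finset (Fin m)), 0 ≤ V I.card * Real.exp (y I) :=
    fun y I => mul_nonneg (hV0 I) (Real.exp_pos _).le
  have hlow : ∀ x ∈ Set.Icc (-L) L, ∑ I : Finset (Fin m), V I.card
      ≤ 12 * ∑ I : Finset (Fin m), V I.card * Real.exp (x * zz m B I) := fun x hx =>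
    lev_lower (fun I : Finset (Fin m) => V I.card) (zz m B) _ _ hV0 hU hBd (by linarith) hz
      (abs_le.2 hx) (by linarith)
  refine ⟨L, hL0, m, hm0, h0 + h, ?_, ?_, fun x hx => ?_, fun x hx i => ?_⟩
  · have h1 := lev_end (fun I : Finset (Fin m) => V I.card) (zz m B) _ _ hV0 hU hBd hδ0.le
      (by linarith) hz hz' hZ hL0 hη0 (by linarith)
    refine hfin _ _ _ _ _ _ (Real.exp_pos _) (hom (-L)) (hg0 _) ?_ h1
    rw [← hE]; linarith
  · have h1 := lev_end (η := η) (Z := 1 / D) (fun I : Finset (Fin m) => V I.card)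
      (fun I => 1 - zz m B I) _ _ hV0 hU' hBd hδ0.le (by linarith)
      (fun I hb hu => by rw [abs_sub_comm]; exact hz' I hb (not_not.1 hu))
      (fun I hb hu => by rw [sub_sub_cancel_left, abs_neg]; exact hz I hb hu)
      (fun I => by rw [abs_sub_comm]; exact hZ' I) hL0 hη0 (by linarith)
    simp only [abs_sub_comm (1 : ℝ)] at h1
    refine hfin _ _ _ _ _ _ (Real.exp_pos _) hom' (hg0 _) ?_ h1
    rw [← hE]; linarith
  · have h1 := lev_upper (c := 7 * η) (C := 2) (e := 0) (fun I : Finset (Fin m) => V I.card)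
      (zz m B) (fun I => min (7 * |zz m B I|) (min 2 (7 * |zz m B I - 1|))) _ hV0 hBd hδ0.le
      (abs_le.2 hx) hZ (by positivity) (by norm_num) le_rfl
      (fun I => (min_le_right _ _).trans (min_le_left _ _))
      (fun I hb => Or.inl (by
        by_cases hu : (17 / 100 + B) / 2 * (m : ℝ) < I.card
        · have := hz' I hb hu
          exact ((min_le_right _ _).trans (min_le_right _ _)).trans (by linarith)
        · have := hz I hb hu
          exact (min_le_left _ _).trans (by linarith))) (hlow x hx)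
    refine hfin _ _ _ _ _ _ (Real.exp_pos _) (hom x) (hg0 _) ?_ h1
    rw [← hE]; linarith
  · have h1 := lev_upper (c := 17 / 100 + δ) (C := 1) (e := 0)
      (fun I : Finset (Fin m) => V I.card)
      (zz m B) (fun I => (I.card : ℝ) / m) _ hV0 hBd hδ0.le
      (abs_le.2 hx) hZ (by positivity) (by norm_num) le_rfl (fun I => (hy I).2)
      (fun I hb => Or.inl (by
        have h2 := (abs_le.1 (not_lt.1 hb)).2
        have h3 : pk (17 / 100) B m I.card ≤ 17 / 100 := by
          unfold pk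
          split_ifs
          · exact le_rfl
          · exact hBA.le
        linarith)) (hlow x hx)
    have h2 := hfin _ _ (172 / 1000) _ _ _ (Real.exp_pos _) (hom x) (hg0 _)
      (by rw [← hE]; linarith) h1
    have h3 := lev_marg m (fun k => Real.exp (T * m * Real.exp (-(24 / 5 * ((k : ℝ) / m)))
      + (h0 + h) * k + x * (((k : ℝ) / m) / (17 / 100 - B)))) i
    change (m : ℝ) * ∑ I : Finset (Fin m), (if i ∈ I then om m B T (h0 + h) x I else 0)
      = ∑ I : Finset (Fin m), om m B T (h0 + h) x I * I.card at h3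
    have h4 : ∑ I : Finset (Fin m), om m B T (h0 + h) x I * I.card
        = m * ∑ I : Finset (Fin m), om m B T (h0 + h) x I * ((I.card : ℝ) / m) := by
      rw [Finset.mul_sum]
      refine Finset.sum_congr rfl fun I _ => ?_
      field_simp
    rw [h4] at h3
    rw [mul_left_cancel₀ hm'.ne' h3]
    exact h2

end Pool.Agent.P.MP_abed8b_co
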