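import Pool.Agent.P.MP_abed8b_co.Peak

set_option autoImplicit false

namespace Pool.Agent.P.MP_abed8b_co

open Finset

theorem tr_sum_prod (m n : ℕ) (f : Fin m → ℕ → ℝ) :
    ∑ t : Fin m → Fin (n + 1), ∏ i, f i (t i) = ∏ i, ∑ s ∈ range (n + 1), f i s := by
  have h := Finset.prod_univ_sum (fun _ : Fin m => (univ : Finset (Fin (n + 1))))
    (fun i (s : Fin (n + 1)) => f i s)
  rw [Fintype.piFinset_univ] at h
  rw [← h]
  refine Finset.prod_congr rfl fun i _ => ?_
  exact Fin.sum_univ_eq_sum_range (fun s => f i s) (n + 1)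

theorem tr_total (m n : ℕ) (W : ℕ → ℝ) :
    ∑ t : Fin m → Fin (n + 1), ∏ i, W (t i) = (∑ s ∈ range (n + 1), W s) ^ m := by
  rw [tr_sum_prod m n (fun _ s => W s)]
  simp

theorem tr_bad (m n : ℕ) (W : ℕ → ℝ) (hW : ∀ t, 0 < W t) (P : ℕ → Prop) [DecidablePred P]
    (δ : ℝ) (hP : ∑ s ∈ range (n + 1), (if P s then W s else 0) ≤ δ * ∑ s ∈ range (n + 1), W s)
    (j : Fin m) :
    ∑ t : Fin m → Fin (n + 1), (∏ i, W (t i)) * (if P (t j) then (1 : ℝ) else 0)
      ≤ δ * (∑ s ∈ range (n + 1), W s) ^ m := by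
  set S := ∑ s ∈ range (n + 1), W s with hS
  have hS0 : 0 ≤ S := Finset.sum_nonneg fun s _ => (hW s).le
  have h1 : ∀ t : Fin m → Fin (n + 1), (∏ i, W (t i)) * (if P (t j) then (1 : ℝ) else 0)
      = ∏ i, (if i = j then (if P (t i) then W (t i) else 0) else W (t i)) := by
    intro t
    rw [← Finset.mul_prod_erase univ (fun i => W (t i)) (mem_univ j),
      ← Finset.mul_prod_erase univ
        (fun i => if i = j then (if P (t i) then W (t i) else 0) else W (t i)) (mem_univ j)]
    have h2 : ∏ i ∈ univ.erase j, (if i = j then (if P (t i) then W (t i) else 0) else W (t i))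
        = ∏ i ∈ univ.erase j, W (t i) := by
      refine Finset.prod_congr rfl fun i hi => ?_
      rw [if_neg (Finset.ne_of_mem_erase hi)]
    rw [h2, if_pos rfl]
    split_ifs <;> ring
  simp_rw [h1]
  rw [tr_sum_prod m n (fun i s => if i = j then (if P s then W s else 0) else W s)]
  rw [← Finset.mul_prod_erase univ _ (mem_univ j)]
  have h3 : ∏ i ∈ univ.erase j,
      (∑ s ∈ range (n + 1), if i = j then (if P s then W s else 0) else W s)
        = ∏ _i ∈ univ.erase j, S := by
    refine Finset.prod_congr rfl fun i hi => ?_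
    simp only [if_neg (Finset.ne_of_mem_erase hi)]
    rfl
  rw [h3]
  have h4 : S ^ m = S * ∏ _i ∈ (univ : Finset (Fin m)).erase j, S := by
    rw [Finset.mul_prod_erase univ (fun _ : Fin m => S) (mem_univ j)]
    simp
  rw [h4, ← mul_assoc]
  refine mul_le_mul_of_nonneg_right ?_ (Finset.prod_nonneg fun _ _ => hS0)
  simpa using hP

theorem tr_push (m n : ℕ) (W : ℕ → ℝ) (P : ℕ → Prop) [DecidablePred P]
    (hP : ∑ s ∈ range (n + 1), (if P s then W s else 0) = (∑ s ∈ range (n + 1), W s) / 2)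
    (F : Finset (Fin m) → ℝ) :
    ∑ t : Fin m → Fin (n + 1), (∏ i, W (t i)) * F (univ.filter fun i => P (t i))
      = (∑ s ∈ range (n + 1), W s) ^ m * ((∑ I, F I) / 2 ^ m) := by
  set S := ∑ s ∈ range (n + 1), W s with hS
  have hN : ∑ s ∈ range (n + 1), (if P s then 0 else W s) = S / 2 := by
    have : ∑ s ∈ range (n + 1), (if P s then W s else 0)
        + ∑ s ∈ range (n + 1), (if P s then 0 else W s) = S := by
      rw [← Finset.sum_add_distrib]
      refine Finset.sum_congr rfl fun s _ => ?_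
      split_ifs <;> simp
    linarith
  have h1 : ∀ t : Fin m → Fin (n + 1), (∏ i, W (t i)) * F (univ.filter fun i => P (t i))
      = ∑ I : Finset (Fin m), F I *
        ∏ i, (if i ∈ I then (if P (t i) then W (t i) else 0)
          else (if P (t i) then 0 else W (t i))) := by
    intro t
    rw [Finset.sum_eq_single (univ.filter fun i => P (t i))]
    · rw [mul_comm]
      congr 1
      refine Finset.prod_congr rfl fun i _ => ?_
      by_cases h : P (t i) <;> simp [h]
    · intro I _ hI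
      have : ∃ i, ¬ (i ∈ I ↔ P (t i)) := by
        by_contra hc
        push Not at hc
        apply hI
        ext i
        simp [hc i]
      obtain ⟨i, hi⟩ := this
      rw [Finset.prod_eq_zero (mem_univ i), mul_zero]
      by_cases h : P (t i) <;> by_cases h' : i ∈ I <;> simp_all
    · intro h
      exact absurd (mem_univ _) h
  simp_rw [h1]
  rw [Finset.sum_comm]
  have h2 : ∀ I : Finset (Fin m), ∑ t : Fin m → Fin (n + 1), F I *
        ∏ i, (if i ∈ I then (if P (t i) then W (t i) else 0)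
          else (if P (t i) then 0 else W (t i))) = F I * (S / 2) ^ m := by
    intro I
    rw [← Finset.mul_sum, tr_sum_prod m n (fun i s => if i ∈ I then (if P s then W s else 0)
      else (if P s then 0 else W s))]
    congr 1
    have : ∀ i : Fin m, ∑ s ∈ range (n + 1), (if i ∈ I then (if P s then W s else 0)
      else (if P s then 0 else W s)) = S / 2 := by
      intro i
      by_cases h : i ∈ I
      · simp only [if_pos h]; exact hP
      · simp only [if_neg h]; exact hN
    simp_rw [this]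
    simp [div_pow]
  simp_rw [h2]
  rw [← Finset.sum_mul, div_pow]
  ring

/-- Products of two-peaked weights are close to the uniform measure on `{a, b} ^ m`, uniformly
for a continuous family of test functions. -/
theorem transfer (m : ℕ) (a b L : ℝ) (hb : 0 ≤ b) (hab : b < a) (ha : a ≤ 1)
    (Ξ : ℝ × (Fin m → ℝ) → ℝ) (hΞ : Continuous Ξ) (ε : ℝ) (hε : 0 < ε) :
    ∃ δ > (0 : ℝ), ∀ δ' ≤ δ, ∀ n : ℕ, 0 < n → ∀ W : ℕ → ℝ, (∀ t, 0 < W t) → TwoPeak a b δ' n W →
      ∀ x ∈ Set.Icc (-L) L,
        ∑ t : Fin m → Fin (n + 1), (∏ i, W (t i)) * Ξ (x, fun i => ((t i : ℕ) : ℝ) / n)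
          ≤ (∑ t ∈ range (n + 1), W t) ^ m *
            ((∑ I : Finset (Fin m), Ξ (x, fun i => if i ∈ I then a else b)) / 2 ^ m + ε) := by
  set K : Set (ℝ × (Fin m → ℝ)) := Set.Icc (-L) L ×ˢ Set.Icc 0 1 with hK
  have hKc : IsCompact K := isCompact_Icc.prod isCompact_Icc
  obtain ⟨C, hC⟩ := hKc.exists_bound_of_continuousOn hΞ.continuousOn
  have huc := hKc.uniformContinuousOn_of_continuous hΞ.continuousOn
  rw [Metric.uniformContinuousOn_iff] at huc
  obtain ⟨η, hη, hu⟩ := huc (ε / 2) (by linarith)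
  set D : ℝ := 2 * |C| + 1 with hD
  have hD0 : 0 < D := by positivity
  have hm1 : (0 : ℝ) < m + 1 := by positivity
  set δ : ℝ := min (η / 2) (ε / (2 * D * (m + 1))) with hδ
  have hδ0 : 0 < δ := lt_min (by linarith) (by positivity)
  have hδ1 : δ < η := lt_of_le_of_lt (min_le_left _ _) (by linarith)
  have hδ2 : D * (m * δ) ≤ ε / 2 := by
    have h1 : δ ≤ ε / (2 * D * (m + 1)) := min_le_right _ _
    rw [le_div_iff₀ (by positivity)] at h1
    nlinarith [mul_pos hD0 hδ0]
  refine ⟨δ, hδ0, fun δ' hδ' n hn W hW hT x hx => ?_⟩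
  set S := ∑ s ∈ range (n + 1), W s with hS
  have hS0 : 0 ≤ S := Finset.sum_nonneg fun s _ => (hW s).le
  have hn0 : (0 : ℝ) < n := by exact_mod_cast hn
  have hbad : ∑ s ∈ range (n + 1), (if δ < |(s : ℝ) / n - pk a b n s| then W s else 0)
      ≤ δ * S := by
    refine le_trans (Finset.sum_le_sum fun s _ => ?_)
      (hT.2.trans (mul_le_mul_of_nonneg_right hδ' hS0))
    by_cases h : δ < |(s : ℝ) / n - pk a b n s|
    · rw [if_pos h, if_pos (lt_of_le_of_lt hδ' h)]
    · rw [if_neg h]
      split_ifs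
      · exact (hW s).le
      · exact le_rfl
  have hpt : ∀ t : Fin m → Fin (n + 1),
      Ξ (x, fun i => ((t i : ℕ) : ℝ) / n) ≤
        Ξ (x, fun i => if i ∈ univ.filter (fun i => (a + b) / 2 * n < ((t i : ℕ) : ℝ)) then a else b)
          + ε / 2 + D * ∑ j, (if δ < |((t j : ℕ) : ℝ) / n - pk a b n (t j)| then (1 : ℝ) else 0) := by
    intro t
    have hq : (fun i => if i ∈ univ.filter (fun i => (a + b) / 2 * n < ((t i : ℕ) : ℝ)) then a else b)
        = fun i => pk a b n (t i) := by
      funext i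
      simp [pk]
    rw [hq]
    have hp1 : (x, fun i => ((t i : ℕ) : ℝ) / n) ∈ K := by
      refine ⟨hx, fun i => ?_, fun i => ?_⟩
      · show (0 : ℝ) ≤ ((t i : ℕ) : ℝ) / n
        positivity
      · show ((t i : ℕ) : ℝ) / n ≤ 1
        rw [div_le_one hn0]
        exact_mod_cast Nat.lt_succ_iff.mp (t i).2
    have hp2 : (x, fun i => pk a b n (t i)) ∈ K := by
      refine ⟨hx, fun i => ?_, fun i => ?_⟩
      · show (0 : ℝ) ≤ pk a b n (t i)
        unfold pk
        split_ifs <;> linarith
      · show pk a b n (t i) ≤ 1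
        unfold pk
        split_ifs <;> linarith
    have hsum0 : ∀ j ∈ (univ : Finset (Fin m)),
        (0 : ℝ) ≤ (if δ < |((t j : ℕ) : ℝ) / n - pk a b n (t j)| then (1 : ℝ) else 0) := by
      intro j _
      split_ifs <;> norm_num
    by_cases hg : ∃ j, δ < |((t j : ℕ) : ℝ) / n - pk a b n (t j)|
    · obtain ⟨j, hj⟩ := hg
      have h1 := Finset.single_le_sum hsum0 (mem_univ j)
      rw [if_pos hj] at h1
      have h2 := hC _ hp1
      have h3 := hC _ hp2
      rw [Real.norm_eq_abs, abs_le] at h2 h3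
      have h4 := le_abs_self C
      have h5 := mul_le_mul_of_nonneg_left h1 hD0.le
      linarith [h2.2, h3.1]
    · push Not at hg
      have h1 : dist (x, fun i => ((t i : ℕ) : ℝ) / n) (x, fun i => pk a b n (t i)) < η := by
        rw [Prod.dist_eq, dist_self]
        refine max_lt hη ?_
        rw [dist_pi_lt_iff hη]
        intro i
        rw [Real.dist_eq]
        exact lt_of_le_of_lt (hg i) hδ1
      have h2 := hu _ hp1 _ hp2 h1
      rw [Real.dist_eq, abs_lt] at h2
      have h3 := mul_nonneg hD0.le (Finset.sum_nonneg hsum0)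
      linarith [h2.2]
  have hprod : ∀ t : Fin m → Fin (n + 1), 0 ≤ ∏ i, W (t i) :=
    fun t => Finset.prod_nonneg fun i _ => (hW _).le
  refine le_trans (Finset.sum_le_sum fun t _ => mul_le_mul_of_nonneg_left (hpt t) (hprod t)) ?_
  simp_rw [mul_add]
  rw [Finset.sum_add_distrib, Finset.sum_add_distrib]
  have e1 := tr_push m n W (fun s => (a + b) / 2 * n < (s : ℝ)) hT.1
    (fun I => Ξ (x, fun i => if i ∈ I then a else b))
  have e2 : ∑ t : Fin m → Fin (n + 1), (∏ i, W (t i)) * (ε / 2) = S ^ m * (ε / 2) := by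
    rw [← Finset.sum_mul, tr_total]
  have e3 : ∑ t : Fin m → Fin (n + 1), (∏ i, W (t i)) *
      (D * ∑ j, (if δ < |((t j : ℕ) : ℝ) / n - pk a b n (t j)| then (1 : ℝ) else 0))
        ≤ S ^ m * (ε / 2) := by
    have : ∀ t : Fin m → Fin (n + 1), (∏ i, W (t i)) *
      (D * ∑ j, (if δ < |((t j : ℕ) : ℝ) / n - pk a b n (t j)| then (1 : ℝ) else 0))
        = D * ∑ j, (∏ i, W (t i)) *
          (if δ < |((t j : ℕ) : ℝ) / n - pk a b n (t j)| then (1 : ℝ) else 0) := by
      intro t
      rw [← Finset.mul_sum]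
      ring
    simp_rw [this]
    rw [← Finset.mul_sum, Finset.sum_comm]
    have h1 : ∑ j : Fin m, ∑ t : Fin m → Fin (n + 1), (∏ i, W (t i)) *
          (if δ < |((t j : ℕ) : ℝ) / n - pk a b n (t j)| then (1 : ℝ) else 0)
        ≤ ∑ _j : Fin m, δ * S ^ m :=
      Finset.sum_le_sum fun j _ =>
        tr_bad m n W hW (fun s => δ < |(s : ℝ) / n - pk a b n s|) δ hbad j
    rw [Finset.sum_const, Finset.card_univ, Fintype.card_fin, nsmul_eq_mul] at h1
    have h2 := mul_le_mul_of_nonneg_left h1 hD0.le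
    have h3 := mul_le_mul_of_nonneg_right hδ2 (pow_nonneg hS0 m)
    nlinarith
  rw [e1, e2]
  linarith

end Pool.Agent.P.MP_abed8b_co
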