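import Pool.Agent.P.MP_abed8b_co.Core
import Pool.Agent.P.MP_abed8b_co.Lev
import Pool.Agent.P.MP_abed8b_co.Trans

set_option autoImplicit false

namespace Pool.Agent.P.MP_abed8b_co

open Finset Filter Topology

/-- A strict inequality between averages over `{a, b} ^ m` passes to products of two-peaked
weights. -/
theorem trans_use (m : ℕ) (a b L : ℝ) (hb : 0 ≤ b) (hab : b < a) (ha : a ≤ 1) (hL : 0 ≤ L)
    (D : ℝ × (Fin m → ℝ) → ℝ) (hD : Continuous D) (hD0 : ∀ z, 0 < D z)
    (Ψ : (Fin m → ℝ) → ℝ) (hΨ : Continuous Ψ) (c' c : ℝ) (hc : c' < c) :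
    ∀ᶠ δ in 𝓝[>] (0 : ℝ), ∀ n : ℕ, 0 < n → ∀ W : ℕ → ℝ, (∀ t, 0 < W t) → TwoPeak a b δ n W →
      ∀ x ∈ Set.Icc (-L) L,
        (∑ I : Finset (Fin m), D (x, fun i => if i ∈ I then a else b) *
            Ψ (fun i => if i ∈ I then a else b)
          ≤ c' * ∑ I : Finset (Fin m), D (x, fun i => if i ∈ I then a else b)) →
        ∑ t : Fin m → Fin (n + 1), (∏ i, W (t i)) * D (x, fun i => ((t i : ℕ) : ℝ) / n) *
            Ψ (fun i => ((t i : ℕ) : ℝ) / n)
          ≤ c * ∑ t : Fin m → Fin (n + 1), (∏ i, W (t i)) * D (x, fun i => ((t i : ℕ) : ℝ) / n) := by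
  have hcont : Continuous fun x : ℝ =>
      ∑ I : Finset (Fin m), D (x, fun i => if i ∈ I then a else b) := by
    refine continuous_finsetSum _ fun I _ => hD.comp ?_
    exact continuous_id.prodMk continuous_const
  obtain ⟨x0, -, hx0⟩ := (isCompact_Icc (a := -L) (b := L)).exists_isMinOn
    ⟨0, by constructor <;> linarith⟩ hcont.continuousOn
  set S0 := ∑ I : Finset (Fin m), D (x0, fun i => if i ∈ I then a else b) with hS0
  have hS0pos : 0 < S0 := Finset.sum_pos (fun I _ => hD0 _) Finset.univ_nonempty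
  have he : 0 < (c - c') * S0 / 2 ^ m := by
    have : 0 < c - c' := by linarith
    positivity
  obtain ⟨δ0, hδ0, H⟩ := transfer m a b L hb hab ha (fun z => D z * (Ψ z.2 - c))
    (hD.mul ((hΨ.comp continuous_snd).sub continuous_const)) _ he
  have hev : ∀ᶠ δ in 𝓝[>] (0 : ℝ), δ ≤ δ0 :=
    mem_nhdsWithin_of_mem_nhds (Iic_mem_nhds hδ0)
  filter_upwards [hev] with δ hδ n hn W hW hT x hx hyp
  have H1 := H δ hδ n hn W hW hT x hx
  have hmin : S0 ≤ ∑ I : Finset (Fin m), D (x, fun i => if i ∈ I then a else b) := hx0 hx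
  have h2 : ∑ I : Finset (Fin m), D (x, fun i => if i ∈ I then a else b) *
      (Ψ (fun i => if i ∈ I then a else b) - c) ≤ -((c - c') * S0) := by
    simp only [mul_sub, Finset.sum_sub_distrib, ← Finset.sum_mul]
    have : 0 < c - c' := by linarith
    nlinarith
  have h3 : (∑ I : Finset (Fin m), D (x, fun i => if i ∈ I then a else b) *
      (Ψ (fun i => if i ∈ I then a else b) - c)) / 2 ^ m + (c - c') * S0 / 2 ^ m ≤ 0 := by
    rw [← add_div]
    apply div_nonpos_of_nonpos_of_nonneg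
    · linarith
    · positivity
  have h4 : (0 : ℝ) ≤ (∑ t ∈ range (n + 1), W t) ^ m :=
    pow_nonneg (Finset.sum_nonneg fun t _ => (hW t).le) _
  have h5 := H1.trans (mul_nonpos_of_nonneg_of_nonpos h4 h3)
  simp only [mul_sub, Finset.sum_sub_distrib, ← mul_assoc, ← Finset.sum_mul] at h5
  linarith

/-- The interaction between the clusters, with the two fields. -/
noncomputable def DD (m u : ℕ) (τ' p h Δ E : ℝ) (z : ℝ × (Fin m → ℝ)) : ℝ :=
  Real.exp (τ' * ∏ i, (1 - p * z.2 i) ^ u + h * ((∑ i, z.2 i) / Δ) +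
    z.1 * ((∑ i, z.2 i) / (Δ * m * E)))

theorem DD_cont (m u : ℕ) (τ' p h Δ E : ℝ) : Continuous (DD m u τ' p h Δ E) := by
  unfold DD
  fun_prop

theorem DD_pos (m u : ℕ) (τ' p h Δ E : ℝ) (z : ℝ × (Fin m → ℝ)) : 0 < DD m u τ' p h Δ E z :=
  Real.exp_pos _

theorem tot_div {m n : ℕ} (c : ℝ) (t : Fin m → Fin (n + 1)) :
    tot t / (n * c) = (∑ i, ((t i : ℕ) : ℝ) / n) / c := by
  unfold tot
  rw [← Finset.sum_div, div_div]

theorem phi_factor (m n d u : ℕ) (τ τ' p r h Δ E x : ℝ)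
    (t : Fin m → Fin (n + 1)) :
    phi m n d u (τ * n) τ' p (r + h / (n * Δ)) t * Real.exp (x * (tot t / (n * (Δ * m * E))))
      = (∏ i, Real.exp (τ * n * (1 - ((t i : ℕ) : ℝ) / n) ^ d + r * (t i : ℕ)) /
          ((t i : ℕ).factorial : ℝ)) * DD m u τ' p h Δ E (x, fun i => ((t i : ℕ) : ℝ) / n) := by
  rw [tot_div]
  unfold phi DD
  have h1 : ∏ i, Real.exp (τ * n * (1 - ((t i : ℕ) : ℝ) / n) ^ d +
        (r + h / (n * Δ)) * (t i : ℕ)) / ((t i : ℕ).factorial : ℝ)
      = (∏ i, Real.exp (τ * n * (1 - ((t i : ℕ) : ℝ) / n) ^ d + r * (t i : ℕ)) /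
          ((t i : ℕ).factorial : ℝ)) * Real.exp (h * ((∑ i, ((t i : ℕ) : ℝ) / n) / Δ)) := by
    rw [Finset.sum_div, Finset.mul_sum, Real.exp_sum, ← Finset.prod_mul_distrib]
    refine Finset.prod_congr rfl fun i _ => ?_
    rw [div_mul_eq_mul_div, ← Real.exp_add]
    congr 2
    ring
  rw [h1, Real.exp_add, Real.exp_add]
  ring

theorem sum_al (m : ℕ) (a b : ℝ) (I : Finset (Fin m)) :
    ∑ i, (if i ∈ I then a else b) = m * b + I.card * (a - b) := by
  have : ∀ i : Fin m, (if i ∈ I then a else b) = b + (if i ∈ I then a - b else 0) := by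
    intro i
    split_ifs <;> ring
  simp only [this, Finset.sum_add_distrib, Finset.sum_const, Finset.card_univ, Fintype.card_fin,
    nsmul_eq_mul]
  rw [Finset.sum_ite_mem, Finset.univ_inter, Finset.sum_const, nsmul_eq_mul]

theorem DD_al (m u : ℕ) (hm : 0 < m) (hu : 0 < u) (a b p B T h x : ℝ) (hab : b < a)
    (hB : B < 17 / 100) (hpb : 0 < 1 - p * b)
    (hp : 1 - p * a = (1 - p * b) * Real.exp (-(24 / 5 / (m * u)))) (I : Finset (Fin m)) :
    DD m u (T * m / (1 - p * b) ^ (m * u)) p h (a - b) (17 / 100 - B)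
        (x, fun i => if i ∈ I then a else b)
      = om m B T h x I * Real.exp (h * (m * b / (a - b)) + x * (b / ((a - b) * (17 / 100 - B)))) := by
  unfold DD om
  rw [← Real.exp_add]
  congr 1
  have hm' : (m : ℝ) ≠ 0 := by positivity
  have hu' : (u : ℝ) ≠ 0 := by positivity
  have hΔ : a - b ≠ 0 := by linarith
  have hE : 17 / 100 - B ≠ 0 := by linarith
  have h1 : ∏ i : Fin m, (1 - p * (if i ∈ I then a else b)) ^ u
      = (1 - p * b) ^ (m * u) * Real.exp (-(24 / 5 * ((I.card : ℝ) / m))) := by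
    have : ∀ i : Fin m, (1 - p * (if i ∈ I then a else b)) ^ u
        = (1 - p * b) ^ u * Real.exp (if i ∈ I then -(24 / 5 / m) else 0) := by
      intro i
      split_ifs
      · rw [hp, mul_pow, ← Real.exp_nat_mul]
        congr 2
        field_simp
      · simp
    simp only [this]
    rw [Finset.prod_mul_distrib, ← Real.exp_sum, Finset.sum_ite_mem, Finset.univ_inter,
      Finset.sum_const, nsmul_eq_mul, Finset.prod_const, Finset.card_univ, Fintype.card_fin,
      ← pow_mul, mul_comm u m]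
    congr 2
    ring
  simp only [h1, sum_al]
  have hpow : (1 - p * b) ^ (m * u) ≠ 0 := by positivity
  field_simp
  ring

theorem K_al (m : ℕ) (hm : 0 < m) (a b B : ℝ) (hab : b < a) (hB : B < 17 / 100)
    (I : Finset (Fin m)) :
    (∑ i, (if i ∈ I then a else b)) / ((a - b) * m * (17 / 100 - B)) -
      (b / ((a - b) * (17 / 100 - B)) + B / (17 / 100 - B)) = zz m B I := by
  unfold zz
  have hm' : (m : ℝ) ≠ 0 := by positivity
  have hΔ : a - b ≠ 0 := by linarith
  have hE : 17 / 100 - B ≠ 0 := by linarith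
  rw [sum_al]
  generalize 17 / 100 - B = E at hE
  field_simp
  ring

/-- The final numerical inequality holds for many colours. -/
theorem final_ineq (L C M : ℝ) (hL : 0 < L) (hC : 0 < C) :
    ∀ᶠ Q : ℝ in atTop, M * Real.exp (-(8 / 100000 * Q)) ≤ 1 / 2 ∧
      (2 * L + 7) * (C * Q ^ 2 * Real.exp (-(8 / 100000 * Q))) *
        Real.exp (2 * L * (C * Q ^ 2 * Real.exp (-(8 / 100000 * Q))))
        < Real.exp (Q * Real.log (1 - 3 / 100000)) := by
  have t0 : Tendsto (fun Q : ℝ => 4 / 100000 * Q) atTop atTop :=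
    tendsto_id.const_mul_atTop (by norm_num)
  have t1 : Tendsto (fun Q : ℝ => (4 / 100000 * Q) ^ 2 * Real.exp (-(4 / 100000 * Q))) atTop
      (𝓝 0) := (Real.tendsto_pow_mul_exp_neg_atTop_nhds_zero 2).comp t0
  have t2 : Tendsto (fun Q : ℝ => C * Q ^ 2 * Real.exp (-(4 / 100000 * Q))) atTop (𝓝 0) := by
    have := t1.const_mul (C * (100000 / 4) ^ 2)
    rw [mul_zero] at this
    refine this.congr fun Q => ?_
    ring
  have t3 : Tendsto (fun Q : ℝ => M * Real.exp (-(8 / 100000 * Q))) atTop (𝓝 0) := by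
    have := (Real.tendsto_exp_neg_atTop_nhds_zero.comp
      (tendsto_id.const_mul_atTop (show (0 : ℝ) < 8 / 100000 by norm_num))).const_mul M
    rw [mul_zero] at this
    exact this
  have hs : 0 < min 1 (1 / ((2 * L + 7) * Real.exp (2 * L))) := by positivity
  filter_upwards [t2.eventually (gt_mem_nhds hs), t3.eventually (gt_mem_nhds
    (show (0 : ℝ) < 1 / 2 by norm_num)), eventually_ge_atTop (0 : ℝ)] with Q h1 h2 hQ
  refine ⟨h2.le, ?_⟩
  set s := C * Q ^ 2 * Real.exp (-(4 / 100000 * Q)) with hs'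
  have hs0 : 0 ≤ s := by positivity
  have e1 : C * Q ^ 2 * Real.exp (-(8 / 100000 * Q)) = s * Real.exp (-(4 / 100000 * Q)) := by
    rw [hs', mul_assoc (C * Q ^ 2), ← Real.exp_add]
    congr 2
    ring
  have e2 : Real.exp (-(4 / 100000 * Q)) ≤ 1 := Real.exp_le_one_iff.2 (by linarith)
  have s1 : s < 1 := lt_of_lt_of_le h1 (min_le_left _ _)
  have s2 : s < 1 / ((2 * L + 7) * Real.exp (2 * L)) := lt_of_lt_of_le h1 (min_le_right _ _)
  rw [lt_div_iff₀ (by positivity)] at s2
  have e3 : s * Real.exp (-(4 / 100000 * Q)) ≤ 1 := by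
    have := Real.exp_pos (-(4 / 100000 * Q))
    nlinarith
  have e4 : Real.exp (2 * L * (s * Real.exp (-(4 / 100000 * Q)))) ≤ Real.exp (2 * L) :=
    Real.exp_le_exp.2 (by nlinarith)
  have e5 : -(4 / 100000) ≤ Real.log (1 - 3 / 100000) := by
    have := Real.one_sub_inv_le_log_of_pos (show (0 : ℝ) < 1 - 3 / 100000 by norm_num)
    norm_num at this ⊢
    linarith
  have e6 : Real.exp (-(4 / 100000 * Q)) ≤ Real.exp (Q * Real.log (1 - 3 / 100000)) :=
    Real.exp_le_exp.2 (by nlinarith)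
  rw [e1]
  refine lt_of_lt_of_le ?_ e6
  have hx := Real.exp_pos (-(4 / 100000 * Q))
  calc (2 * L + 7) * (s * Real.exp (-(4 / 100000 * Q))) *
        Real.exp (2 * L * (s * Real.exp (-(4 / 100000 * Q))))
      ≤ (2 * L + 7) * (s * Real.exp (-(4 / 100000 * Q))) * Real.exp (2 * L) :=
        mul_le_mul_of_nonneg_left e4 (by positivity)
    _ = (s * ((2 * L + 7) * Real.exp (2 * L))) * Real.exp (-(4 / 100000 * Q)) := by ring
    _ < 1 * Real.exp (-(4 / 100000 * Q)) := mul_lt_mul_of_pos_right s2 hx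
    _ = _ := one_mul _

end Pool.Agent.P.MP_abed8b_co
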